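import Mathlib

namespace Pool.Agent.P.MP_414122_co

/-- `π` contains the pattern `σ`. -/
def Contains {n k : ℕ} (π : Equiv.Perm (Fin n)) (σ : Equiv.Perm (Fin k)) : Prop :=
  ∃ f : Fin k ↪o Fin n, ∀ i j : Fin k, σ i < σ j ↔ π (f i) < π (f j)

/-- The direct sum of two permutations. -/
def dsum {k m : ℕ} (σ : Equiv.Perm (Fin k)) (τ : Equiv.Perm (Fin m)) :
    Equiv.Perm (Fin (k + m)) :=
  finSumFinEquiv.permCongr (Equiv.sumCongr σ τ)

/-- A nonempty permutation that is not the direct sum of two nonempty permutations. -/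
def Indecomposable {n : ℕ} (π : Equiv.Perm (Fin n)) : Prop :=
  0 < n ∧ ∀ (k m : ℕ) (σ : Equiv.Perm (Fin k)) (τ : Equiv.Perm (Fin m)), 0 < k → 0 < m →
    (⟨n, π⟩ : Σ n : ℕ, Equiv.Perm (Fin n)) ≠ ⟨k + m, dsum σ τ⟩

end Pool.Agent.P.MP_414122_co
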