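import Pool.Agent.P.MP_414122_co.Defs

namespace Pool.Agent.P.MP_414122_co

open Filter Topology

/-- The infinite sequence 2 4 0 5 7 3 8 10 6 ... -/
def v (p : ℕ) : ℕ := if p % 3 = 0 then p + 2 else if p % 3 = 1 then p + 3 else p - 2

/-- The class of finite patterns of `v`. -/
def C (n : ℕ) : Set (Equiv.Perm (Fin n)) :=
  {π | ∃ f : Fin n → ℕ, StrictMono f ∧ ∀ i j, π i < π j ↔ v (f i) < v (f j)}

lemma v_inj {a b : ℕ} (h : v a = v b) : a = b := by
  unfold v at h
  split_ifs at h <;> omega

lemma v_shift (a t : ℕ) : v (a + 3 * t) = v a + 3 * t := by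
  unfold v
  have : (a + 3 * t) % 3 = a % 3 := by omega
  rw [this]
  split_ifs <;> omega

lemma v_le (a : ℕ) : v a ≤ a + 3 := by
  unfold v
  split_ifs <;> omega

lemma closed {n k : ℕ} (π : Equiv.Perm (Fin n)) (σ : Equiv.Perm (Fin k)) (hπ : π ∈ C n)
    (h : Contains π σ) : σ ∈ C k := by
  obtain ⟨f, hf, hv⟩ := hπ
  obtain ⟨g, hg⟩ := h
  exact ⟨f ∘ g, hf.comp g.strictMono, fun i j => by rw [hg, hv]; rfl⟩

lemma dsum_left {k m : ℕ} (σ : Equiv.Perm (Fin k)) (τ : Equiv.Perm (Fin m)) (i : Fin k) :
    dsum σ τ (Fin.castAdd m i) = Fin.castAdd m (σ i) := by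
  simp [dsum, Equiv.permCongr_apply]

lemma dsum_right {k m : ℕ} (σ : Equiv.Perm (Fin k)) (τ : Equiv.Perm (Fin m)) (i : Fin m) :
    dsum σ τ (Fin.natAdd k i) = Fin.natAdd k (τ i) := by
  simp [dsum, Equiv.permCongr_apply]

lemma sumClosed {k m : ℕ} (σ : Equiv.Perm (Fin k)) (τ : Equiv.Perm (Fin m)) (hσ : σ ∈ C k)
    (hτ : τ ∈ C m) : dsum σ τ ∈ C (k + m) := by
  obtain ⟨f, hf, hv⟩ := hσ
  obtain ⟨g, hg, hw⟩ := hτ
  obtain ⟨B, hB⟩ : ∃ B, ∀ i, f i ≤ B := ⟨Finset.univ.sup f, fun i => Finset.le_sup (Finset.mem_univ i)⟩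
  refine ⟨Fin.addCases f (fun j => g j + 3 * (B + 2)), ?_, ?_⟩
  · intro a b hab
    induction a using Fin.addCases with
    | left a =>
      induction b using Fin.addCases with
      | left b =>
        simp only [Fin.addCases_left]
        exact hf (by simpa only [Fin.lt_def, Fin.val_castAdd] using hab)
      | right b =>
        simp only [Fin.addCases_left, Fin.addCases_right]
        have := hB a
        omega
    | right a =>
      induction b using Fin.addCases with
      | left b =>
        exfalso
        have := b.2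
        simp [Fin.lt_def] at hab
        omega
      | right b =>
        simp only [Fin.addCases_right]
        have : a < b := by
          simp only [Fin.lt_def, Fin.val_natAdd] at hab ⊢
          omega
        have := hg this
        omega
  · intro a b
    induction a using Fin.addCases with
    | left a =>
      induction b using Fin.addCases with
      | left b =>
        simp only [Fin.addCases_left, dsum_left]
        rw [← hv]
        simp only [Fin.lt_def, Fin.val_castAdd]
      | right b =>
        simp only [Fin.addCases_left, Fin.addCases_right, dsum_left, dsum_right, v_shift]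
        have h1 := hB a
        have h2 := v_le (f a)
        have h3 := (σ a).2
        simp only [Fin.lt_def, Fin.val_castAdd, Fin.val_natAdd]
        constructor <;> intro _ <;> omega
    | right a =>
      induction b using Fin.addCases with
      | left b =>
        simp only [Fin.addCases_left, Fin.addCases_right, dsum_left, dsum_right, v_shift]
        have h1 := hB b
        have h2 := v_le (f b)
        have h3 := (σ b).2
        simp only [Fin.lt_def, Fin.val_castAdd, Fin.val_natAdd]
        constructor <;> intro _ <;> omega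
      | right b =>
        simp only [Fin.addCases_right, dsum_right, v_shift]
        have := hw a b
        simp only [Fin.lt_def, Fin.val_natAdd] at this ⊢
        constructor
        · intro h
          have := this.1 (by omega)
          omega
        · intro h
          have := this.2 (by omega)
          omega

lemma dsum_inj {k m : ℕ} {σ σ' : Equiv.Perm (Fin k)} {τ τ' : Equiv.Perm (Fin m)}
    (h : dsum σ τ = dsum σ' τ') : σ = σ' ∧ τ = τ' := by
  constructor
  · ext i
    have := congrArg (fun π => ((π (Fin.castAdd m i) : Fin (k + m)) : ℕ)) h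
    simpa [dsum_left] using this
  · ext i
    have := congrArg (fun π => ((π (Fin.natAdd k i) : Fin (k + m)) : ℕ)) h
    simpa [dsum_right] using this

lemma card_supermult (k m : ℕ) : Nat.card (C k) * Nat.card (C m) ≤ Nat.card (C (k + m)) := by
  rw [← Nat.card_prod]
  refine Nat.card_le_card_of_injective
    (fun p : C k × C m => (⟨dsum p.1.1 p.2.1, sumClosed _ _ p.1.2 p.2.2⟩ : C (k + m))) ?_
  intro p q h
  have := dsum_inj (congrArg Subtype.val h)
  exact Prod.ext (Subtype.ext this.1) (Subtype.ext this.2)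

lemma card_pos (n : ℕ) : 0 < Nat.card (C n) := by
  have : Nonempty (C n) := by
    refine ⟨⟨1, fun i => 3 * i, ?_, ?_⟩⟩
    · intro a b hab
      have : (a : ℕ) < b := hab
      simp only
      omega
    · intro i j
      have h1 := v_shift 0 i
      have h2 := v_shift 0 j
      simp only [zero_add] at h1 h2
      simp only [h1, h2, Equiv.Perm.coe_one, id, Fin.lt_def]
      omega
  exact Nat.card_pos

/-! Standardisation -/

lemma exists_std {n : ℕ} (h : Fin n → ℕ) (hh : Function.Injective h) :
    ∃ π : Equiv.Perm (Fin n), ∀ i j, π i < π j ↔ h i < h j := by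
  have hm : StrictMono (h ∘ Tuple.sort h) :=
    (Tuple.monotone_sort h).strictMono_of_injective (hh.comp (Tuple.sort h).injective)
  refine ⟨(Tuple.sort h).symm, fun i j => ?_⟩
  rw [← hm.lt_iff_lt]
  simp

/-! Lower bound for indecomposables -/

def pos (e : ℕ → Bool) (p : ℕ) : ℕ :=
  6 * (p / 5) + (if e (p / 5) then p % 5 + 1 else if p % 5 ≤ 2 then p % 5 else p % 5 + 1)

lemma pos_mono (e : ℕ → Bool) : StrictMono (pos e) := by
  refine strictMono_nat_of_lt_succ fun p => ?_
  unfold pos
  by_cases h : p % 5 = 4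
  · have h1 : (p + 1) / 5 = p / 5 + 1 := by omega
    rw [h1]
    split_ifs <;> omega
  · have h1 : (p + 1) / 5 = p / 5 := by omega
    rw [h1]
    split_ifs <;> omega

lemma pos_surj (e : ℕ → Bool) (m a : ℕ) (ha : a % 3 ≠ 0) (ham : a < 6 * m) :
    ∃ p, p < 5 * m ∧ pos e p = a := by
  by_cases he : e (a / 6) = true
  · refine ⟨5 * (a / 6) + (a % 6 - 1), by omega, ?_⟩
    unfold pos
    have h1 : (5 * (a / 6) + (a % 6 - 1)) / 5 = a / 6 := by omega
    have h2 : (5 * (a / 6) + (a % 6 - 1)) % 5 = a % 6 - 1 := by omega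
    rw [h1, h2, if_pos he]
    omega
  · refine ⟨5 * (a / 6) + (if a % 6 ≤ 2 then a % 6 else a % 6 - 1), by split_ifs <;> omega, ?_⟩
    unfold pos
    have h1 : (5 * (a / 6) + (if a % 6 ≤ 2 then a % 6 else a % 6 - 1)) / 5 = a / 6 := by
      split_ifs <;> omega
    have h2 : (5 * (a / 6) + (if a % 6 ≤ 2 then a % 6 else a % 6 - 1)) % 5 =
        (if a % 6 ≤ 2 then a % 6 else a % 6 - 1) := by
      split_ifs <;> omega
    rw [h1, h2, if_neg he]
    split_ifs <;> omega

lemma pos_lt (e : ℕ → Bool) (m p : ℕ) (hp : p < 5 * m) : pos e p < 6 * m := by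
  unfold pos
  split_ifs <;> omega

lemma indec_of_cut {n : ℕ} (π : Equiv.Perm (Fin n)) (hn : 0 < n)
    (h : ∀ k : ℕ, 0 < k → k < n → ∃ i j : Fin n, (i : ℕ) < k ∧ k ≤ j ∧ π j < π i) :
    Indecomposable π := by
  refine ⟨hn, fun k m σ τ hk hm heq => ?_⟩
  obtain ⟨rfl, h2⟩ := Sigma.mk.inj_iff.1 heq
  have h3 : π = dsum σ τ := eq_of_heq h2
  obtain ⟨i, j, hi, hj, hij⟩ := h k hk (by omega)
  have ei : i = Fin.castAdd m ⟨i, hi⟩ := Fin.ext rfl
  have ej : j = Fin.natAdd k ⟨j - k, by have := j.2; omega⟩ := Fin.ext (by simp; omega)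
  rw [h3, ei, ej, dsum_left, dsum_right] at hij
  have := (σ ⟨i, hi⟩).2
  simp only [Fin.lt_def, Fin.val_castAdd, Fin.val_natAdd] at hij
  omega

lemma exists_family (m : ℕ) (hm : 0 < m) (e : ℕ → Bool) :
    ∃ π : Equiv.Perm (Fin (5 * m)), π ∈ C (5 * m) ∧ Indecomposable π ∧
      ∀ (t : ℕ) (ht : t < m),
        (π ⟨5 * t + 1, by omega⟩ < π ⟨5 * t, by omega⟩ ↔ e t = true) := by
  obtain ⟨π, hπ⟩ := exists_std (n := 5 * m) (fun i => v (pos e i)) (by
    intro a b hab
    exact Fin.ext ((pos_mono e).injective (v_inj hab)))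
  refine ⟨π, ⟨fun i => pos e i, fun a b hab => pos_mono e hab, hπ⟩, ?_, ?_⟩
  · refine indec_of_cut π (by omega) fun k hk hkn => ?_
    have hlt := pos_lt e m k hkn
    have hmono := pos_mono e (show k - 1 < k by omega)
    by_cases h : pos e (k - 1) % 3 = 2
    · obtain ⟨p, hp, hpe⟩ := pos_surj e m (pos e (k - 1) - 1) (by omega) (by omega)
      obtain ⟨q, hq, hqe⟩ := pos_surj e m (pos e (k - 1) + 3) (by omega) (by omega)
      refine ⟨⟨p, hp⟩, ⟨q, hq⟩, ?_, ?_, ?_⟩
      · have : p < k - 1 := (pos_mono e).lt_iff_lt.1 (by omega)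
        simp only
        omega
      · have : k - 1 < q := (pos_mono e).lt_iff_lt.1 (by omega)
        simp only
        omega
      · rw [hπ]
        simp only [hpe, hqe, v]
        split_ifs <;> omega
    · obtain ⟨q, hq, hqe⟩ := pos_surj e m (3 * (pos e (k - 1) / 3) + 2) (by omega) (by omega)
      refine ⟨⟨k - 1, by omega⟩, ⟨q, hq⟩, ?_, ?_, ?_⟩
      · simp only
        omega
      · have : k - 1 < q := (pos_mono e).lt_iff_lt.1 (by omega)
        simp only
        omega
      · rw [hπ]
        simp only [hqe, v]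
        split_ifs <;> omega
  · intro t ht
    rw [hπ]
    have h1 : (5 * t + 1) / 5 = t := by omega
    have h2 : (5 * t + 1) % 5 = 1 := by omega
    have h3 : (5 * t) / 5 = t := by omega
    have h4 : (5 * t) % 5 = 0 := by omega
    simp only [pos, h1, h2, h3, h4, v]
    by_cases he : e t = true
    · simp only [he, if_true, iff_true]
      split_ifs <;> omega
    · simp only [he, iff_false, Bool.false_eq_true, if_false]
      split_ifs <;> omega

lemma card_ind (m : ℕ) (hm : 0 < m) :
    2 ^ m ≤ Nat.card {π : Equiv.Perm (Fin (5 * m)) // π ∈ C (5 * m) ∧ Indecomposable π} := by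
  choose F hF1 hF2 hF3 using exists_family m hm
  have : Nat.card (Fin m → Bool) = 2 ^ m := by simp
  rw [← this]
  refine Nat.card_le_card_of_injective
    (fun e : Fin m → Bool =>
      (⟨F (fun t => if h : t < m then e ⟨t, h⟩ else false), hF1 _, hF2 _⟩ :
        {π : Equiv.Perm (Fin (5 * m)) // π ∈ C (5 * m) ∧ Indecomposable π})) ?_
  intro e e' h
  have h' := congrArg Subtype.val h
  simp only at h'
  funext t
  have h1 := hF3 (fun t => if h : t < m then e ⟨t, h⟩ else false) t t.2
  have h2 := hF3 (fun t => if h : t < m then e' ⟨t, h⟩ else false) t t.2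
  rw [h'] at h1
  simp only [t.2, dite_true, Fin.eta] at h1 h2
  exact Bool.eq_iff_iff.2 (h1.symm.trans h2)

/-! Lehmer code -/

def code {n : ℕ} (π : Equiv.Perm (Fin n)) (i : Fin n) : ℕ :=
  (Finset.univ.filter fun j => i < j ∧ π j < π i).card

lemma code_inj {n : ℕ} {π σ : Equiv.Perm (Fin n)} (h : code π = code σ) : π = σ := by
  have key : ∀ t : ℕ, ∀ j k : Fin n, n - t ≤ j → n - t ≤ k → (π j < π k ↔ σ j < σ k) := by
    intro t
    induction t with
    | zero => intro j k hj; have := j.2; omega
    | succ t ih =>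
      have step : ∀ i j : Fin n, n - t ≤ (i : ℕ) + 1 → i < j → (π j < π i ↔ σ j < σ i) := by
        intro i j hi hij
        set A := Finset.univ.filter fun j => i < j ∧ π j < π i with hA
        set B := Finset.univ.filter fun j => i < j ∧ σ j < σ i with hB
        have hc : A.card = B.card := congrFun h i
        have hAB : A ⊆ B ∨ B ⊆ A := by
          by_contra hcon
          rw [not_or, Finset.not_subset, Finset.not_subset] at hcon
          obtain ⟨⟨a, ha, ha'⟩, ⟨b, hb, hb'⟩⟩ := hcon
          simp only [hA, hB, Finset.mem_filter, Finset.mem_univ, true_and, not_and, not_lt] at ha ha' hb hb'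
          have h1 : π a < π b := lt_of_lt_of_le ha.2 (hb' hb.1)
          have h2 : (i : ℕ) < a := ha.1
          have h3 : (i : ℕ) < b := hb.1
          have h4 := (ih a b (by omega) (by omega)).1 h1
          exact absurd (lt_trans h4 hb.2) (not_lt.2 (ha' ha.1))
        have hE : A = B := by
          rcases hAB with h1 | h1
          · exact Finset.eq_of_subset_of_card_le h1 hc.ge
          · exact (Finset.eq_of_subset_of_card_le h1 hc.le).symm
        have : j ∈ A ↔ j ∈ B := by rw [hE]
        simpa [hA, hB, hij] using this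
      intro j k hj hk
      rcases lt_trichotomy j k with hjk | rfl | hjk
      · have := step j k (by omega) hjk
        have h1 : π j ≠ π k := fun h => hjk.ne (π.injective h)
        have h2 : σ j ≠ σ k := fun h => hjk.ne (σ.injective h)
        constructor
        · intro h3
          by_contra h4
          exact absurd (this.2 (lt_of_le_of_ne (not_lt.1 h4) h2.symm)) (not_lt.2 h3.le)
        · intro h3
          by_contra h4
          exact absurd (this.1 (lt_of_le_of_ne (not_lt.1 h4) h1.symm)) (not_lt.2 h3.le)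
      · simp
      · exact step k j (by omega) hjk
  have hall : ∀ j k : Fin n, π j < π k ↔ σ j < σ k := fun j k => key n j k (by omega) (by omega)
  have hm : StrictMono (σ ∘ π.symm) := by
    intro a b hab
    exact (hall _ _).1 (by simpa using hab)
  have hid : σ ∘ π.symm = id := by
    have hs : Function.Surjective (σ ∘ π.symm) := σ.surjective.comp π.symm.surjective
    have := Subsingleton.elim (hm.orderIsoOfSurjective _ hs) (OrderIso.refl _)
    funext a
    have h2 := congrArg (fun e : Fin n ≃o Fin n => e a) this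
    simpa using h2
  ext i
  have := congrFun hid (π i)
  simp at this
  rw [this]

lemma inv_cases {a b : ℕ} (hab : a < b) (h : v b < v a) :
    b % 3 = 2 ∧ ((a % 3 = 0 ∧ b = a + 2) ∨ (a % 3 = 1 ∧ (b = a + 1 ∨ b = a + 4))) := by
  unfold v at h
  split_ifs at h <;> omega

lemma code_pos_iff {n : ℕ} (π : Equiv.Perm (Fin n)) (i : Fin n) :
    code π i ≠ 0 ↔ ∃ j, i < j ∧ π j < π i := by
  simp [code, Finset.card_eq_zero, Finset.filter_eq_empty_iff]

lemma code_facts {n : ℕ} (π : Equiv.Perm (Fin n)) (hπ : π ∈ C n) :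
    (∀ i, code π i ≤ 2) ∧
    (∀ i j : Fin n, (j : ℕ) = i + 1 → code π i = 2 → code π j = 0) ∧
    (∀ i j k l : Fin n, (j : ℕ) = i + 1 → (k : ℕ) = i + 2 → (l : ℕ) = i + 3 →
      code π i = 0 ∨ code π j = 0 ∨ code π k = 0 ∨ code π l = 0) := by
  obtain ⟨f, hf, hv⟩ := hπ
  have hinv : ∀ i j : Fin n, i < j → π j < π i →
      f j % 3 = 2 ∧ ((f i % 3 = 0 ∧ f j = f i + 2) ∨
        (f i % 3 = 1 ∧ (f j = f i + 1 ∨ f j = f i + 4))) :=
    fun i j hij h => inv_cases (hf hij) ((hv _ _).1 h)
  refine ⟨fun i => ?_, fun i j hj h2 => ?_, fun i j k l hj hk hl => ?_⟩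
  · by_contra hcon
    obtain ⟨a, ha, b, hb, c, hc, hab, hac, hbc⟩ := Finset.two_lt_card.1 (not_le.1 hcon)
    simp only [Finset.mem_filter, Finset.mem_univ, true_and] at ha hb hc
    have h1 := hinv i a ha.1 ha.2
    have h2 := hinv i b hb.1 hb.2
    have h3 := hinv i c hc.1 hc.2
    have e1 : f a ≠ f b := fun h => hab (hf.injective h)
    have e2 : f a ≠ f c := fun h => hac (hf.injective h)
    have e3 : f b ≠ f c := fun h => hbc (hf.injective h)
    omega
  · by_contra hcon
    obtain ⟨c, hc1, hc2⟩ := (code_pos_iff π j).1 hcon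
    obtain ⟨a, ha, b, hb, hab⟩ := Finset.one_lt_card.1
      (show 1 < (Finset.univ.filter fun j => i < j ∧ π j < π i).card by
        have : (Finset.univ.filter fun j => i < j ∧ π j < π i).card = 2 := h2
        omega)
    simp only [Finset.mem_filter, Finset.mem_univ, true_and] at ha hb
    have h1 := hinv i a ha.1 ha.2
    have h2 := hinv i b hb.1 hb.2
    have h3 := hinv j c hc1 hc2
    have e1 : f a ≠ f b := fun h => hab (hf.injective h)
    have ha1 : (i : ℕ) < a := ha.1
    have hb1 : (i : ℕ) < b := hb.1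
    have m1 : f j ≤ f a := hf.monotone (show (j : ℕ) ≤ a by omega)
    have m2 : f j ≤ f b := hf.monotone (show (j : ℕ) ≤ b by omega)
    have m3 : f i < f j := hf (show (i : ℕ) < j by omega)
    omega
  · by_contra hcon
    simp only [not_or] at hcon
    obtain ⟨h1, h2, h3, h4⟩ := hcon
    obtain ⟨a, ha1, ha2⟩ := (code_pos_iff π i).1 h1
    obtain ⟨b, hb1, hb2⟩ := (code_pos_iff π j).1 h2
    obtain ⟨c, hc1, hc2⟩ := (code_pos_iff π k).1 h3
    obtain ⟨d, hd1, hd2⟩ := (code_pos_iff π l).1 h4
    have g1 := hinv _ _ ha1 ha2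
    have g2 := hinv _ _ hb1 hb2
    have g3 := hinv _ _ hc1 hc2
    have g4 := hinv _ _ hd1 hd2
    have m1 : f i < f j := hf (show (i : ℕ) < j by omega)
    have m2 : f j < f k := hf (show (j : ℕ) < k by omega)
    have m3 : f k < f l := hf (show (k : ℕ) < l by omega)
    have ha : (i : ℕ) < a := ha1
    have hcases : a = j ∨ a = k ∨ a = l ∨ l < a := by
      simp only [Fin.ext_iff, Fin.lt_def]
      omega
    rcases hcases with rfl | rfl | rfl | hla
    · omega
    · omega
    · omega
    · have := hf hla
      omega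

/-! Counting words -/

def run : List ℕ → ℕ
  | [] => 0
  | a :: w => if a = 0 then 0 else run w + 1

def ext (w : List ℕ) : List ℕ := if run w = 0 then [0, 1, 2] else if run w ≤ 2 then [0, 1] else [0]

def L : ℕ → List (List ℕ)
  | 0 => [[]]
  | n + 1 => (L n).flatMap fun w => (ext w).map fun a => a :: w

def phi (k : ℕ) : ℕ := if k = 0 then 50 else if k = 1 then 35 else if k = 2 then 30 else 21

lemma step_bound (w : List ℕ) :
    5 * (((ext w).map fun a => a :: w).map fun u => phi (run u)).sum ≤ 12 * phi (run w) := by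
  unfold ext
  split_ifs with h1 h2
  · simp [run, h1, phi]
  · have : run w = 1 ∨ run w = 2 := by omega
    rcases this with h | h <;> simp [run, h, phi]
  · have h3 : run w ≠ 1 := by omega
    have h4 : run w ≠ 2 := by omega
    simp [run, phi, h1, h3, h4]

lemma flat_bound (l : List (List ℕ)) :
    5 * ((l.flatMap fun w => (ext w).map fun a => a :: w).map fun u => phi (run u)).sum ≤
      12 * (l.map fun u => phi (run u)).sum := by
  induction l with
  | nil => simp
  | cons w l ih =>
    have := step_bound w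
    simp only [List.flatMap_cons, List.map_append, List.sum_append, List.map_cons,
      List.sum_cons] at this ih ⊢
    omega

lemma L_bound (n : ℕ) : 5 ^ n * ((L n).map fun u => phi (run u)).sum ≤ 50 * 12 ^ n := by
  induction n with
  | zero => simp [L, run, phi]
  | succ n ih =>
    have := flat_bound (L n)
    calc 5 ^ (n + 1) * ((L (n + 1)).map fun u => phi (run u)).sum
        = 5 ^ n * (5 * ((L (n + 1)).map fun u => phi (run u)).sum) := by ring
      _ ≤ 5 ^ n * (12 * ((L n).map fun u => phi (run u)).sum) := Nat.mul_le_mul_left _ this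
      _ = 12 * (5 ^ n * ((L n).map fun u => phi (run u)).sum) := by ring
      _ ≤ 12 * (50 * 12 ^ n) := Nat.mul_le_mul_left _ ih
      _ = 50 * 12 ^ (n + 1) := by ring

lemma length_le_sum (l : List (List ℕ)) : l.length ≤ (l.map fun u => phi (run u)).sum := by
  induction l with
  | nil => simp
  | cons w l ih =>
    have : 1 ≤ phi (run w) := by unfold phi; split_ifs <;> omega
    simp only [List.length_cons, List.map_cons, List.sum_cons]
    omega

def Valid (w : List ℕ) : Prop :=
  ∀ i, w.getD i 0 ≤ 2 ∧ (w.getD i 0 = 2 → w.getD (i + 1) 0 = 0) ∧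
    (w.getD i 0 = 0 ∨ w.getD (i + 1) 0 = 0 ∨ w.getD (i + 2) 0 = 0 ∨ w.getD (i + 3) 0 = 0)

lemma run_spec (w : List ℕ) : ∀ i, i < run w → w.getD i 0 ≠ 0 := by
  induction w with
  | nil => simp [run]
  | cons a w ih =>
    intro i hi
    unfold run at hi
    split_ifs at hi with h
    · omega
    · cases i with
      | zero => simpa using h
      | succ i => simpa using ih i (by omega)

lemma mem_L (w : List ℕ) (hw : Valid w) : w ∈ L w.length := by
  induction w with
  | nil => simp [L]
  | cons a w ih =>
    have hw' : Valid w := fun i => by simpa using hw (i + 1)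
    simp only [List.length_cons, L, List.mem_flatMap, List.mem_map]
    refine ⟨w, ih hw', a, ?_, rfl⟩
    obtain ⟨h1, h2, h3⟩ := hw 0
    simp only [List.getD_cons_zero, List.getD_cons_succ, zero_add] at h1 h2 h3
    have r0 := run_spec w 0
    have r1 := run_spec w 1
    have r2 := run_spec w 2
    unfold ext
    split_ifs with c1 c2
    · simp only [List.mem_cons, List.not_mem_nil, or_false]; omega
    · simp only [List.mem_cons, List.not_mem_nil, or_false]
      have := r0 (by omega)
      omega
    · simp only [List.mem_cons, List.not_mem_nil, or_false]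
      have := r0 (by omega)
      have := r1 (by omega)
      have := r2 (by omega)
      omega

lemma getD_ofFn {n : ℕ} (c : Fin n → ℕ) (i : ℕ) :
    (List.ofFn c).getD i 0 = if h : i < n then c ⟨i, h⟩ else 0 := by
  split_ifs with h
  · simp [List.getD_eq_getElem?_getD, h]
  · simp [List.getD_eq_getElem?_getD, h]

lemma valid_code {n : ℕ} (π : Equiv.Perm (Fin n)) (hπ : π ∈ C n) : Valid (List.ofFn (code π)) := by
  obtain ⟨h1, h2, h3⟩ := code_facts π hπ
  intro i
  simp only [getD_ofFn]
  refine ⟨?_, ?_, ?_⟩
  · split_ifs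
    · exact h1 _
    · omega
  · split_ifs with a b
    · exact h2 _ _ rfl
    · simp
    · omega
    · simp
  · by_cases h : i + 3 < n
    · rw [dif_pos (by omega : i < n), dif_pos (by omega : i + 1 < n),
        dif_pos (by omega : i + 2 < n), dif_pos h]
      exact h3 _ _ _ _ rfl rfl rfl
    · simp [h]

lemma card_le (n : ℕ) : 5 ^ n * Nat.card (C n) ≤ 50 * 12 ^ n := by
  have h1 : Nat.card (C n) ≤ (L n).length := by
    calc Nat.card (C n) ≤ Nat.card ((L n).toFinset) := by
          refine Nat.card_le_card_of_injective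
            (fun π : C n => (⟨List.ofFn (code π.1), by
              have := mem_L _ (valid_code π.1 π.2)
              simpa using this⟩ : (L n).toFinset)) ?_
          intro π σ h
          have h' := congrArg Subtype.val h
          exact Subtype.ext (code_inj (List.ofFn_injective h'))
      _ = (L n).toFinset.card := Nat.card_eq_finsetCard _
      _ ≤ (L n).length := List.toFinset_card_le _
  exact le_trans (Nat.mul_le_mul_left _ (h1.trans (length_le_sum _))) (L_bound n)

lemma log_card_le (n : ℕ) :
    Real.log (Nat.card (C n)) ≤ Real.log 50 + n * Real.log (12 / 5) := by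
  have h1 : (Nat.card (C n) : ℝ) ≤ 50 * (12 / 5) ^ n := by
    have h := card_le n
    have h' : (5 : ℝ) ^ n * (Nat.card (C n) : ℝ) ≤ 50 * 12 ^ n := by exact_mod_cast h
    rw [div_pow, ← mul_div_assoc, le_div_iff₀ (by positivity)]
    linarith
  have h0 : (0 : ℝ) < Nat.card (C n) := by exact_mod_cast card_pos n
  calc Real.log (Nat.card (C n)) ≤ Real.log (50 * (12 / 5) ^ n) := Real.log_le_log h0 h1
    _ = _ := by rw [Real.log_mul (by norm_num) (by positivity), Real.log_pow]

theorem growth : ∃ g : ℝ,
    Tendsto (fun n : ℕ => ((Nat.card (C n) : ℕ) : ℝ) ^ ((1 : ℝ) / (n : ℝ))) atTop (𝓝 g) ∧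
      g < 1 + √2 := by
  set u : ℕ → ℝ := fun n => -Real.log (Nat.card (C n)) with hu
  have hpos : ∀ n, (0 : ℝ) < Nat.card (C n) := fun n => by exact_mod_cast card_pos n
  have hsub : Subadditive u := by
    intro m n
    have h : (Nat.card (C m) : ℝ) * Nat.card (C n) ≤ Nat.card (C (m + n)) := by
      exact_mod_cast card_supermult m n
    have := Real.log_le_log (mul_pos (hpos m) (hpos n)) h
    rw [Real.log_mul (hpos m).ne' (hpos n).ne'] at this
    simp only [hu]
    linarith
  have l50 : 0 ≤ Real.log 50 := Real.log_nonneg (by norm_num)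
  have l12 : 0 ≤ Real.log (12 / 5) := Real.log_nonneg (by norm_num)
  have hlow : ∀ n : ℕ, 0 < n → -(Real.log 50 / n) - Real.log (12 / 5) ≤ u n / n := by
    intro n hn
    have hn' : (0 : ℝ) < n := by exact_mod_cast hn
    have := log_card_le n
    rw [le_div_iff₀ hn']
    simp only [hu]
    field_simp
    linarith
  have hbdd : BddBelow (Set.range fun n : ℕ => u n / n) := by
    refine ⟨-Real.log 50 - Real.log (12 / 5), ?_⟩
    rintro _ ⟨n, rfl⟩
    rcases Nat.eq_zero_or_pos n with rfl | hn
    · simp only [Nat.cast_zero, div_zero]; linarith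
    · have h1 := hlow n hn
      have hn' : (1 : ℝ) ≤ n := by exact_mod_cast hn
      have h2 : Real.log 50 / n ≤ Real.log 50 := div_le_self l50 hn'
      simp only
      linarith
  have hlim := hsub.tendsto_lim hbdd
  refine ⟨Real.exp (-hsub.lim), ?_, ?_⟩
  · have := (Real.continuous_exp.tendsto _).comp hlim.neg
    refine this.congr fun n => ?_
    simp only [Function.comp, hu]
    rw [Real.rpow_def_of_pos (hpos n)]
    congr 1
    ring
  · have h1 : -Real.log (12 / 5) ≤ hsub.lim := by
      have ht : Tendsto (fun n : ℕ => -(Real.log 50 / n) - Real.log (12 / 5)) atTop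
          (𝓝 (-0 - Real.log (12 / 5))) :=
        ((tendsto_const_div_atTop_nhds_zero_nat (Real.log 50)).neg).sub_const _
      have := le_of_tendsto_of_tendsto ht hlim
        (by filter_upwards [eventually_gt_atTop 0] with n hn using hlow n hn)
      simpa using this
    have h2 : Real.exp (-hsub.lim) ≤ 12 / 5 := by
      calc Real.exp (-hsub.lim) ≤ Real.exp (Real.log (12 / 5)) :=
            Real.exp_le_exp.2 (by linarith)
        _ = 12 / 5 := Real.exp_log (by norm_num)
    have h3 : (7 / 5 : ℝ) < √2 := Real.lt_sqrt_of_sq_lt (by norm_num)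
    linarith

theorem ind_growth : 1 < limsup (fun n : ℕ =>
    ((Nat.card {π : Equiv.Perm (Fin n) // π ∈ C n ∧ Indecomposable π} : ℕ) : ENNReal) ^
      ((1 : ℝ) / (n : ℝ))) atTop := by
  have h1 : (1 : ENNReal) < (2 : ENNReal) ^ ((1 : ℝ) / 5) :=
    ENNReal.one_lt_rpow (by norm_num) (by norm_num)
  refine lt_of_lt_of_le h1 (le_limsup_of_frequently_le ?_)
  rw [frequently_atTop]
  intro a
  refine ⟨5 * (a + 1), by omega, ?_⟩
  have h2 := card_ind (a + 1) (by omega)
  have h3 : (2 : ENNReal) ^ (a + 1) ≤
      ((Nat.card {π : Equiv.Perm (Fin (5 * (a + 1))) //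
        π ∈ C (5 * (a + 1)) ∧ Indecomposable π} : ℕ) : ENNReal) := by exact_mod_cast h2
  refine le_trans ?_ (ENNReal.rpow_le_rpow h3 (by positivity))
  rw [← ENNReal.rpow_natCast, ← ENNReal.rpow_mul]
  apply le_of_eq
  congr 1
  push_cast
  field_simp

end Pool.Agent.P.MP_414122_co
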