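import Pool.Agent.P.MP_414122_co.ThHub

/-! Few breaks inside one neighbourhood. -/

namespace Pool.Agent.P.MP_414122_co.Th

open Finset

variable {α : Type*} {X Y : α → ℤ}

lemma enum (hX : Function.Injective X) (T : Finset α) :
    ∃ a : Fin T.card → α, (∀ i, a i ∈ T) ∧ (∀ b ∈ T, ∃ i, a i = b) ∧ StrictMono (X ∘ a) := by
  have hc : (T.image X).card = T.card := card_image_of_injective _ hX
  have h1 : ∀ i : Fin T.card, ∃ b ∈ T, X b = (T.image X).orderEmbOfFin hc i := fun i =>
    mem_image.1 (orderEmbOfFin_mem _ hc i)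
  choose a h2 h3 using h1
  refine ⟨a, h2, fun b hb => ?_, fun i j hij => ?_⟩
  · have : X b ∈ Set.range ((T.image X).orderEmbOfFin hc) := by
      rw [range_orderEmbOfFin]
      exact mem_image_of_mem _ hb
    obtain ⟨i, hi⟩ := this
    exact ⟨i, hX ((h3 i).trans hi)⟩
  · simp only [Function.comp, h3]
    exact ((T.image X).orderEmbOfFin hc).strictMono hij

lemma es (hX : Function.Injective X) (hY : Function.Injective Y) (r : ℕ) :
    ∀ (s : ℕ) (Q : Finset α), r * s < Q.card →
      (∃ a : ℕ → α, (∀ i ≤ r, a i ∈ Q) ∧ ∀ i j, i < j → j ≤ r → sw X Y (a i) (a j)) ∨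
        ∃ a : ℕ → α, (∀ i ≤ s, a i ∈ Q) ∧ ∀ i j, i < j → j ≤ s → nw X Y (a i) (a j) := by
  classical
  intro s
  induction s with
  | zero =>
    intro Q hQ
    obtain ⟨q, hq⟩ := Finset.card_pos.1 (by simpa using hQ : 0 < Q.card)
    exact Or.inr ⟨fun _ => q, fun _ _ => hq, fun i j h1 h2 => by omega⟩
  | succ s ih =>
    intro Q hQ
    set M := Q.filter fun q => ∀ p ∈ Q, ¬nw X Y q p with hM
    by_cases h : r < M.card
    · obtain ⟨a, h1, -, h3⟩ := enum hX M
      refine Or.inl ⟨fun i => a ⟨min i r, by omega⟩, fun i _ => (mem_filter.1 (h1 _)).1, ?_⟩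
      intro i j hij hj
      have h4 := h3 (show (⟨min i r, by omega⟩ : Fin M.card) < ⟨min j r, by omega⟩ from by
        simp only [Fin.mk_lt_mk]; omega)
      have h5 := (mem_filter.1 (h1 ⟨min i r, by omega⟩)).2 _ (mem_filter.1 (h1 ⟨min j r, by omega⟩)).1
      have h6 : Y (a ⟨min i r, by omega⟩) ≠ Y (a ⟨min j r, by omega⟩) := fun e => by
        rw [Function.comp, Function.comp, hY e] at h4
        exact lt_irrefl _ h4
      simp only [Function.comp, sw, nw] at h4 h5 ⊢
      omega
    · have hc : r * s < (Q \ M).card := by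
        rw [card_sdiff_of_subset (show M ⊆ Q from filter_subset _ _)]
        rw [Nat.mul_succ] at hQ
        omega
      rcases ih _ hc with ⟨a, h1, h2⟩ | ⟨a, h1, h2⟩
      · exact Or.inl ⟨a, fun i hi => (mem_sdiff.1 (h1 i hi)).1, h2⟩
      · have h3 := mem_sdiff.1 (h1 s le_rfl)
        have : ∃ p ∈ Q, nw X Y (a s) p := by
          by_contra hc
          exact h3.2 (mem_filter.2 ⟨h3.1, fun p hp h4 => hc ⟨p, hp, h4⟩⟩)
        obtain ⟨p, hp, h4⟩ := this
        refine Or.inr ⟨fun i => if i ≤ s then a i else p, fun i _ => ?_, fun i j hij hj => ?_⟩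
        · dsimp only
          split_ifs with h5
          · exact (mem_sdiff.1 (h1 i h5)).1
          · exact hp
        · dsimp only
          rw [if_pos (by omega : i ≤ s)]
          split_ifs with h5
          · exact h2 i j hij h5
          · rcases (by omega : i < s ∨ i = s) with h6 | h6
            · have := h2 i s h6 le_rfl
              simp only [nw] at this h4 ⊢
              omega
            · rwa [h6]

variable (X Y) in
/-- The next point to the right is not next in height. -/
def Brk (q : α) : Prop := ∃ b, X b = X q + 1 ∧ Y b ≠ Y q + 1 ∧ Y b ≠ Y q - 1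

/-- All values between two values are taken. -/
def Full (Y : α → ℤ) : Prop := ∀ a b t, Y a < t → t < Y b → ∃ c, Y c = t

lemma brk_third (hX : Function.Injective X) (hY : Function.Injective Y) (fY : Full Y) {q : α}
    (h : Brk X Y q) : ∃ b c, X b = X q + 1 ∧ (X c < X q ∨ X b < X c) ∧
      ((Y q < Y c ∧ Y c < Y b) ∨ (Y b < Y c ∧ Y c < Y q)) := by
  obtain ⟨b, h1, h2, h3⟩ := h
  have h4 : Y b ≠ Y q := fun e => by
    rw [hY e] at h1
    omega
  have : ∃ c, (Y q < Y c ∧ Y c < Y b) ∨ (Y b < Y c ∧ Y c < Y q) := by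
    rcases lt_or_gt_of_ne h4 with h5 | h5
    · obtain ⟨c, hc⟩ := fY b q (Y q - 1) (by omega) (by omega)
      exact ⟨c, by omega⟩
    · obtain ⟨c, hc⟩ := fY q b (Y q + 1) (by omega) (by omega)
      exact ⟨c, by omega⟩
  obtain ⟨c, hc⟩ := this
  have e1 : X c ≠ X q := fun e => by
    rw [hX e] at hc
    omega
  have e2 : X c ≠ X b := fun e => by
    rw [hX e] at hc
    omega
  exact ⟨b, c, h1, by omega, hc⟩

lemma brk_dec (hX : Function.Injective X) (hY : Function.Injective Y) (fY : Full Y) {n : ℕ}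
    (hn : 2 ≤ n) (a : ℕ → α) (ha : ∀ i j, i < j → j ≤ 2 * n + 1 → nw X Y (a i) (a j))
    (h : Brk X Y (a n)) : Rich X Y n := by
  obtain ⟨b, c, h1, h2, h3⟩ := brk_third hX hY fY h
  have lo : ∀ j ≤ n, X (a j) ≤ X (a n) ∧ Y (a n) ≤ Y (a j) := fun j hj => by
    rcases hj.eq_or_lt with e | e
    · simp [e]
    · exact (ha j n e (by omega)).imp le_of_lt le_of_lt
  have hi : ∀ j, n < j → j ≤ 2 * n + 1 → X (a (n + 1)) ≤ X (a j) ∧ Y (a j) ≤ Y (a (n + 1)) := by
    intro j hj h4
    rcases (show n + 1 ≤ j from hj).eq_or_lt with e | e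
    · simp [e]
    · exact (ha _ j e h4).imp le_of_lt le_of_lt
  have mid := ha n (n + 1) (by omega) (by omega)
  have hb : X b = X (a (n + 1)) → Y b = Y (a (n + 1)) := fun e => by rw [hX e]
  simp only [nw] at mid
  by_cases c1 : Y (a n) < Y b
  · refine rich_dec' (m := n) hn le_rfl a (fun i j h4 h5 => ha i j h4 (by omega)) b
      (Or.inr ⟨by omega, c1⟩) (Or.inl fun j h4 h5 => ?_)
    have := hi j h4 (by omega)
    simp only [nw]
    omega
  by_cases c2 : Y b < Y (a (n + 1))
  · refine rich_dec' (m := n + 1) hn (by omega) a (fun i j h4 h5 => ha i j h4 (by omega)) b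
      (Or.inl ⟨by omega, c2⟩) (Or.inr fun j h4 => ?_)
    have := lo j (by omega)
    simp only [nw]
    omega
  rcases h2 with h2 | h2
  · refine rich_dec' (m := n) hn le_rfl a (fun i j h4 h5 => ha i j h4 (by omega)) c
      (Or.inl ⟨h2, by omega⟩) (Or.inl fun j h4 h5 => ?_)
    have := hi j h4 (by omega)
    simp only [nw]
    omega
  · refine rich_dec' (m := n + 1) hn (by omega) (fun i => if i = n + 1 then b else a i) ?_ c
      (Or.inr ?_) (Or.inr fun j h4 => ?_)
    · intro i j h4 h5
      split_ifs with e1 e2 e2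
      · omega
      · have := ha (n + 1) j (by omega) (by omega)
        simp only [nw] at this ⊢
        omega
      · have := lo i (by omega)
        simp only [nw]
        omega
      · exact ha i j h4 (by omega)
    · simp only [sw, if_true]
      omega
    · have := lo j (by omega)
      rw [if_neg (by omega)]
      simp only [nw]
      omega

lemma brk_inc (hX : Function.Injective X) (hY : Function.Injective Y) (fY : Full Y) {n : ℕ}
    (hn : 3 ≤ n) (a : ℕ → α) (ha : ∀ i j, i < j → j ≤ 2 * n + 1 → sw X Y (a i) (a j)) (h : α)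
    (hh : ∀ j ≤ 2 * n + 1, adj X Y (a j) h) (hb : Brk X Y (a n)) : Rich X Y n := by
  obtain ⟨b, c, h1, h2, h3⟩ := brk_third hX hY fY hb
  have hs : (∀ j ≤ 2 * n + 1, nw X Y (a j) h) ∨ ∀ j ≤ 2 * n + 1, nw X Y h (a j) := by
    refine (hh 0 (by omega)).imp (fun h0 j hj => ?_) (fun h0 j hj => ?_) <;>
    · rcases Nat.eq_zero_or_pos j with e | e
      · rwa [e]
      · have := ha 0 j e hj
        have := hh j hj
        simp only [adj, nw, sw] at *
        omega
  have hs' : ∀ m ≤ n + 1, (∀ j ≤ m + n, nw X Y (a j) h) ∨ ∀ j ≤ m + n, nw X Y h (a j) :=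
    fun m hm => hs.imp (fun h0 j hj => h0 j (by omega)) fun h0 j hj => h0 j (by omega)
  have lo : ∀ j ≤ n, X (a j) ≤ X (a n) ∧ Y (a j) ≤ Y (a n) := fun j hj => by
    rcases hj.eq_or_lt with e | e
    · simp [e]
    · exact (ha j n e (by omega)).imp le_of_lt le_of_lt
  have hi : ∀ j, n < j → j ≤ 2 * n + 1 → X (a (n + 1)) ≤ X (a j) ∧ Y (a (n + 1)) ≤ Y (a j) := by
    intro j hj h4
    rcases (show n + 1 ≤ j from hj).eq_or_lt with e | e
    · simp [e]
    · exact (ha _ j e h4).imp le_of_lt le_of_lt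
  have mid := ha n (n + 1) (by omega) (by omega)
  have hb : X b = X (a (n + 1)) → Y b = Y (a (n + 1)) := fun e => by rw [hX e]
  simp only [sw] at mid
  by_cases c1 : Y b < Y (a n)
  · refine rich_inc' (m := n) hn le_rfl a (fun i j h4 h5 => ha i j h4 (by omega)) h
      (hs' n (by omega)) b (Or.inr ⟨by omega, c1⟩) (Or.inl fun j h4 h5 => ?_)
    have := hi j h4 (by omega)
    simp only [sw]
    omega
  by_cases c2 : Y (a (n + 1)) < Y b
  · refine rich_inc' (m := n + 1) hn (by omega) a (fun i j h4 h5 => ha i j h4 (by omega)) h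
      (hs' _ le_rfl) b (Or.inl ⟨by omega, c2⟩) (Or.inr fun j h4 => ?_)
    have := lo j (by omega)
    simp only [sw]
    omega
  rcases h2 with h2 | h2
  · refine rich_inc' (m := n) hn le_rfl a (fun i j h4 h5 => ha i j h4 (by omega)) h
      (hs' n (by omega)) c (Or.inl ⟨h2, by omega⟩) (Or.inl fun j h4 h5 => ?_)
    have := hi j h4 (by omega)
    simp only [sw]
    omega
  · refine rich_inc' (m := n + 1) hn (by omega) (fun i => if i = n + 1 then b else a i) ?_ h ?_ c
      (Or.inr ?_) (Or.inr fun j h4 => ?_)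
    · intro i j h4 h5
      split_ifs with e1 e2 e2
      · omega
      · have := ha (n + 1) j (by omega) (by omega)
        simp only [sw] at this ⊢
        omega
      · have := lo i (by omega)
        simp only [sw]
        omega
      · exact ha i j h4 (by omega)
    · refine hs.imp (fun h0 j hj => ?_) (fun h0 j hj => ?_) <;>
      · split_ifs
        · have := h0 n (by omega)
          have := h0 (n + 1) (by omega)
          simp only [nw] at *
          omega
        · exact h0 j (by omega)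
    · simp only [nw, if_true]
      omega
    · have := lo j (by omega)
      rw [if_neg (by omega)]
      simp only [sw]
      omega

lemma brk_bound (hX : Function.Injective X) (hY : Function.Injective Y) (fY : Full Y) {n : ℕ}
    (hn : 3 ≤ n) (hR : ¬Rich X Y n) (h : α) (Q : Finset α)
    (hQ : ∀ q ∈ Q, Brk X Y q ∧ adj X Y q h) : Q.card ≤ (2 * n + 1) * (2 * n + 1) := by
  by_contra hc
  rcases es hX hY _ _ Q (not_le.1 hc) with ⟨a, h1, h2⟩ | ⟨a, h1, h2⟩
  · exact hR (brk_inc hX hY fY hn a h2 h (fun j hj => (hQ _ (h1 j hj)).2)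
      (hQ _ (h1 n (by omega))).1)
  · exact hR (brk_dec hX hY fY (by omega) a h2 (hQ _ (h1 n (by omega))).1)

end Pool.Agent.P.MP_414122_co.Th
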