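import Pool.Agent.P.MP_414122_co.ThStruct

/-! From point sets to permutations: fewer than `n - 1` indecomposables of one length `n` force
polynomially many indecomposables. -/

namespace Pool.Agent.P.MP_414122_co.Th

open Finset Equiv

def pX (N : ℕ) : Fin N → ℤ := fun i => (i : ℕ)

def pY {N : ℕ} (π : Perm (Fin N)) : Fin N → ℤ := fun i => (π i : ℕ)

lemma pX_inj (N : ℕ) : Function.Injective (pX N) := fun a b h => Fin.ext (by simpa [pX] using h)

lemma pY_inj {N : ℕ} (π : Perm (Fin N)) : Function.Injective (pY π) := fun a b h =>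
  π.injective (Fin.ext (by simpa [pY] using h))

lemma pX_full (N : ℕ) : Full (pX N) := fun a b t h1 h2 => by
  have := b.2
  simp only [pX] at h1 h2 ⊢
  exact ⟨⟨t.toNat, by omega⟩, by simp only; omega⟩

lemma pY_full {N : ℕ} (π : Perm (Fin N)) : Full (pY π) := fun a b t h1 h2 => by
  obtain ⟨c, hc⟩ := pX_full N (π a) (π b) t h1 h2
  exact ⟨π.symm c, by simpa [pY, pX] using hc⟩

lemma perm_ext {n : ℕ} {π σ : Perm (Fin n)} (hall : ∀ j k, π j < π k ↔ σ j < σ k) : π = σ := by
  have hm : StrictMono (σ ∘ π.symm) := fun a b hab => (hall _ _).1 (by simpa using hab)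
  have hs : Function.Surjective (σ ∘ π.symm) := σ.surjective.comp π.symm.surjective
  have := Subsingleton.elim (hm.orderIsoOfSurjective _ hs) (OrderIso.refl _)
  ext i
  have h2 := congrArg (fun e : Fin n ≃o Fin n => e (π i)) this
  simp at h2
  rw [h2]

def Cut {N : ℕ} (π : Perm (Fin N)) (k : ℕ) : Prop :=
  ∀ i j : Fin N, (i : ℕ) < k → k ≤ j → π i < π j

lemma split {k m : ℕ} (π : Perm (Fin (k + m))) (h : Cut π k) :
    ∃ σ τ, π = dsum σ τ := by
  obtain ⟨σ, hσ⟩ := exists_std (fun i : Fin k => (π (Fin.castAdd m i) : ℕ)) fun a b e =>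
    Fin.castAdd_injective _ _ (π.injective (Fin.ext e))
  obtain ⟨τ, hτ⟩ := exists_std (fun i : Fin m => (π (Fin.natAdd k i) : ℕ)) fun a b e =>
    Fin.natAdd_injective _ _ (π.injective (Fin.ext e))
  refine ⟨σ, τ, perm_ext fun a b => ?_⟩
  induction a using Fin.addCases with
  | left a =>
    induction b using Fin.addCases with
    | left b =>
      have := hσ a b
      simp only [dsum_left, Fin.lt_def, Fin.val_castAdd] at this ⊢
      exact this.symm
    | right b =>
      have := h (Fin.castAdd m a) (Fin.natAdd k b) a.2 (by simp)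
      have h3 := (σ a).2
      simp only [dsum_left, dsum_right, Fin.lt_def, Fin.val_castAdd, Fin.val_natAdd] at this ⊢
      omega
  | right a =>
    induction b using Fin.addCases with
    | left b =>
      have := h (Fin.castAdd m b) (Fin.natAdd k a) b.2 (by simp)
      have h3 := (σ b).2
      simp only [dsum_left, dsum_right, Fin.lt_def, Fin.val_castAdd, Fin.val_natAdd] at this ⊢
      omega
    | right b =>
      have := hτ a b
      simp only [dsum_right, Fin.lt_def, Fin.val_natAdd] at this ⊢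
      omega

lemma indec_iff {n : ℕ} (π : Perm (Fin n)) :
    Indecomposable π ↔ 0 < n ∧ ∀ k, 0 < k → k < n → ¬Cut π k := by
  refine ⟨fun h => ⟨h.1, fun k h1 h2 hc => ?_⟩, fun h => indec_of_cut π h.1 fun k h1 h2 => ?_⟩
  · obtain ⟨m, rfl⟩ : ∃ m, n = k + m := ⟨n - k, by omega⟩
    obtain ⟨σ, τ, e⟩ := split π hc
    exact h.2 k m σ τ h1 (by omega) (by rw [e])
  · by_contra hc
    refine h.2 k h1 h2 fun i j a1 a2 => lt_of_le_of_ne (not_lt.1 fun a3 => hc ⟨i, j, a1, a2, a3⟩)
      fun e => ?_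
    rw [π.injective e] at a1
    omega

lemma conn_univ {N : ℕ} {π : Perm (Fin N)} (h : Indecomposable π) : Conn (pX N) (pY π) univ := by
  classical
  obtain ⟨h0, h1⟩ := (indec_iff π).1 h
  have key : ∀ T : Fin N → Prop, T ⟨0, h0⟩ → (∃ b, ¬T b) →
      ∃ a b, T a ∧ ¬T b ∧ adj (pX N) (pY π) a b := by
    rintro T hT ⟨b, hb⟩
    obtain ⟨c, hc, hmin⟩ := exists_min_image (univ.filter fun b => ¬T b) (fun i => (i : ℕ))
      ⟨b, mem_filter.2 ⟨mem_univ _, hb⟩⟩
    have hc' := (mem_filter.1 hc).2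
    have c0 : 0 < (c : ℕ) := Nat.pos_of_ne_zero fun e => hc' (by rwa [show c = ⟨0, h0⟩ from Fin.ext e])
    have := h1 c c0 c.2
    simp only [Cut, not_forall] at this
    obtain ⟨i, j, a1, a2, a3⟩ := this
    have hi : T i := by_contra fun e => by
      have := hmin i (mem_filter.2 ⟨mem_univ _, e⟩)
      omega
    have a4 : (π i : ℕ) ≠ π j := fun e => by
      rw [π.injective (Fin.ext e)] at a1
      omega
    have hij : adj (pX N) (pY π) i j := by
      simp only [adj, nw, pX, pY, Fin.lt_def] at a3 ⊢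
      omega
    by_cases hj : T j
    · have : (c : ℕ) ≠ j := fun e => hc' (by rwa [Fin.ext e])
      rcases between (pY_inj π) hij (x := c) (by simp only [pX]; omega)
        (by simp only [pX]; omega) with e | e
      · exact ⟨i, c, hi, hc', adj_symm e⟩
      · exact ⟨j, c, hj, hc', adj_symm e⟩
    · exact ⟨i, j, hi, hj, hij⟩
  rintro T ⟨a, -, ha⟩ ⟨b, -, hb⟩
  by_cases hT : T ⟨0, h0⟩
  · obtain ⟨a, b, a1, a2, a3⟩ := key T hT ⟨b, hb⟩
    exact ⟨a, mem_univ _, b, mem_univ _, a1, a2, a3⟩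
  · obtain ⟨a, b, a1, a2, a3⟩ := key (fun x => ¬T x) hT ⟨a, not_not.2 ha⟩
    exact ⟨b, mem_univ _, a, mem_univ _, not_not.1 a2, a1, adj_symm a3⟩

/-- A family of sets of permutations. -/
abbrev Fam : Type := (n : ℕ) → Set (Perm (Fin n))

def Closed (C : Fam) : Prop :=
  ∀ (n k : ℕ) (π : Perm (Fin n)) (σ : Perm (Fin k)), π ∈ C n → Contains π σ → σ ∈ C k

def SumClosed (C : Fam) : Prop :=
  ∀ (k m : ℕ) (σ : Perm (Fin k)) (τ : Perm (Fin m)), σ ∈ C k → τ ∈ C m → dsum σ τ ∈ C (k + m)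

noncomputable def ind (C : Fam) (n : ℕ) : ℕ :=
  Nat.card {π : Perm (Fin n) // π ∈ C n ∧ Indecomposable π}

lemma pattern {N n : ℕ} (π : Perm (Fin N)) (S : Finset (Fin N)) (hS : S.card = n) (hn : 0 < n)
    (hC : Conn (pX N) (pY π) S) : ∃ (σ : Perm (Fin n)) (a : Fin n → Fin N), StrictMono a ∧
      (∀ b, b ∈ S ↔ ∃ i, a i = b) ∧ (∀ i j, σ i < σ j ↔ π (a i) < π (a j)) ∧ Indecomposable σ := by
  subst hS
  obtain ⟨a, h1, h2, h3⟩ := enum (pX_inj N) S
  have h4 : StrictMono a := fun i j hij => by simpa [pX] using h3 hij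
  obtain ⟨σ, hσ⟩ := exists_std (fun i => (π (a i) : ℕ)) fun i j e =>
    h4.injective (π.injective (Fin.ext e))
  refine ⟨σ, a, h4, fun b => ⟨h2 b, fun ⟨i, e⟩ => e ▸ h1 i⟩, hσ,
    indec_of_cut σ hn fun k k1 k2 => ?_⟩
  obtain ⟨x, -, y, hy, ⟨i, hi, rfl⟩, a2, a3⟩ := hC (fun b => ∃ j : Fin S.card, (j : ℕ) < k ∧ a j = b)
    ⟨a ⟨0, hn⟩, h1 _, ⟨0, hn⟩, k1, rfl⟩ ⟨a ⟨k, k2⟩, h1 _, fun ⟨j, j1, j2⟩ => by
      rw [h4.injective j2] at j1
      exact lt_irrefl _ j1⟩
  obtain ⟨j, rfl⟩ := h2 y hy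
  have hj : k ≤ j := not_lt.1 fun e => a2 ⟨j, e, rfl⟩
  have : a i < a j := h4 (show (i : ℕ) < j by omega)
  refine ⟨i, j, hi, hj, (hσ _ _).2 ?_⟩
  simp only [adj, nw, pX, pY, Fin.lt_def] at a3 this ⊢
  omega

lemma ind_of_rich {C : Fam} (hC : Closed C) {N n : ℕ} {π : Perm (Fin N)} (hπ : π ∈ C N)
    (h : Rich (pX N) (pY π) n) : n - 1 ≤ ind C n := by
  obtain ⟨F, h1, h2⟩ := h
  have : ∀ i : Fin (n - 1), _ := fun i =>
    pattern π (F i) (h1 i i.2).1 (by have := i.2; omega) (h1 i i.2).2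
  choose σ a a1 a2 a3 a4 using this
  have := Nat.card_le_card_of_injective (fun i : Fin (n - 1) =>
    (⟨σ i, hC N n π _ hπ ⟨OrderEmbedding.ofStrictMono _ (a1 i), a3 i⟩, a4 i⟩ :
      {π : Perm (Fin n) // π ∈ C n ∧ Indecomposable π})) fun i j e => by
    have e' : σ i = σ j := congrArg Subtype.val e
    refine Fin.ext (h2 i i.2 j j.2 ⟨n, a i, a j, (a1 i).injective, (a1 j).injective, a2 i, a2 j,
      fun k l => ?_, fun k l => ?_⟩)
    · simp only [pX, Nat.cast_lt, ← Fin.lt_def, (a1 i).lt_iff_lt, (a1 j).lt_iff_lt]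
    · simp only [pY, Nat.cast_lt, ← Fin.lt_def, ← a3, e']
  simpa [ind] using this

lemma exists_list {β : Type*} (W : Finset β) {K : ℕ} (h : W.card ≤ K) :
    ∃ f : Fin K → Option β, ∀ x, x ∈ W ↔ ∃ i, f i = some x := by
  refine ⟨fun i => if h : (i : ℕ) < W.card then some (W.equivFin.symm ⟨i, h⟩ : W) else none,
    fun x => ⟨fun hx => ⟨⟨W.equivFin ⟨x, hx⟩, lt_of_lt_of_le (Fin.is_lt _) h⟩, by simp⟩, ?_⟩⟩
  rintro ⟨i, hi⟩
  dsimp only at hi
  split_ifs at hi with h1
  exact Option.some.inj hi ▸ Subtype.property _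

theorem ind_poly {C : Fam} (hC : Closed C) {n : ℕ} (hn : 3 ≤ n) (h : ind C n < n - 1) :
    ∃ K, ∀ N, ind C N ≤ (N * N + 1) ^ K := by
  classical
  refine ⟨(n + 10) * (2 * ((2 * n + 1) * (2 * n + 1))) * 3 + 3, fun N => ?_⟩
  set K := (n + 10) * (2 * ((2 * n + 1) * (2 * n + 1))) * 3 with hK
  let key : Perm (Fin N) → Fin N → Prop := fun π p =>
    (p : ℕ) < 3 ∨ ∃ a, Bad (pX N) (pY π) a ∧ (p : ℕ) = a + 3
  have hW : ∀ π : {π : Perm (Fin N) // π ∈ C N ∧ Indecomposable π},
      ((univ.filter (key π)).image fun p => (p, π.1 p)).card ≤ K + 3 := fun π => by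
    have hb := bad_bound (pX_inj N) (pY_inj π.1) (pX_full N) (pY_full π.1) (conn_univ π.2.2) hn
      fun hR => absurd (ind_of_rich hC π.2.1 hR) (not_le.2 h)
    refine card_image_le.trans ?_
    have : (univ.filter (key π)).card ≤ (range 3 ∪ (univ.filter (Bad (pX N) (pY π.1))).image
        fun a : Fin N => (a : ℕ) + 3).card := by
      refine card_le_card_of_injOn (fun p => (p : ℕ)) (fun p hp => ?_) fun a _ b _ e => Fin.ext e
      rcases (mem_filter.1 hp).2 with e | ⟨a, a1, a2⟩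
      · exact mem_union_left _ (mem_range.2 e)
      · exact mem_union_right _ (mem_image.2 ⟨a, mem_filter.2 ⟨mem_univ _, a1⟩, a2.symm⟩)
    refine this.trans ((card_union_le _ _).trans ?_)
    have := card_image_le (s := univ.filter (Bad (pX N) (pY π.1))) (f := fun a : Fin N => (a : ℕ) + 3)
    rw [card_range]
    omega
  choose f hf using fun π => exists_list _ (hW π)
  have := Nat.card_le_card_of_injective f fun π σ e => by
    have hm : ∀ x, x ∈ (univ.filter (key π)).image (fun p => (p, π.1 p)) ↔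
        x ∈ (univ.filter (key σ)).image fun p => (p, σ.1 p) := fun x => by rw [hf, hf, e]
    have : ∀ (k : ℕ) (p : Fin N), (p : ℕ) = k → π.1 p = σ.1 p := by
      intro k
      induction k using Nat.strong_induction_on with
      | _ k ih =>
        intro p hp
        by_cases c1 : key π p
        · obtain ⟨q, -, hq⟩ := mem_image.1 ((hm _).1
            (mem_image_of_mem _ (mem_filter.2 ⟨mem_univ _, c1⟩)))
          obtain ⟨rfl, e2⟩ := Prod.mk.inj hq
          exact e2.symm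
        by_cases c2 : key σ p
        · obtain ⟨q, -, hq⟩ := mem_image.1 ((hm _).2
            (mem_image_of_mem _ (mem_filter.2 ⟨mem_univ _, c2⟩)))
          obtain ⟨rfl, e2⟩ := Prod.mk.inj hq
          exact e2
        have := p.2
        simp only [key, not_or, not_exists, not_and, Bad] at c1 c2
        have d1 : ∀ τ : Perm (Fin N), (∀ a : Fin N, (∃ b c e, pX N b = pX N a + 1 ∧
            pX N c = pX N a + 2 ∧ pX N e = pX N a + 3 ∧ pY τ e + pY τ a ≠ pY τ b + pY τ c) →
            ¬(p : ℕ) = a + 3) → pY τ p + pY τ ⟨k - 3, by omega⟩ =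
              pY τ ⟨k - 2, by omega⟩ + pY τ ⟨k - 1, by omega⟩ := fun τ hτ => by
          by_contra hc
          exact hτ ⟨k - 3, by omega⟩ ⟨⟨k - 2, by omega⟩, ⟨k - 1, by omega⟩, p,
            by simp only [pX]; omega, by simp only [pX]; omega, by simp only [pX]; omega, hc⟩
            (by simp only; omega)
        have e1 := d1 π.1 c1.2
        have e2 := d1 σ.1 c2.2
        simp only [pY] at e1 e2
        rw [ih (k - 3) (by omega) ⟨k - 3, by omega⟩ rfl, ih (k - 2) (by omega) ⟨k - 2, by omega⟩ rfl,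
          ih (k - 1) (by omega) ⟨k - 1, by omega⟩ rfl] at e1
        exact Fin.ext (by omega)
    exact Subtype.ext (Equiv.ext fun p => this _ p rfl)
  simpa [ind] using this

end Pool.Agent.P.MP_414122_co.Th
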