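import Pool.Agent.P.MP_414122_co.ThPlane

/-! An increasing chain inside one neighbourhood, with a point out of line. -/

namespace Pool.Agent.P.MP_414122_co.Th

open Finset

variable {α : Type*} {X Y : α → ℤ}

variable (X Y) in
def PI (S : Finset α) (u : α) : Prop :=
  ∃ v ∈ S, ∃ w ∈ S, adj X Y v w ∧ sw X Y v u ∧ sw X Y w u

variable (X Y) in
def Star (S : Finset α) : Prop :=
  ∃ u ∈ S, ∀ v ∈ S, v ≠ u → nw X Y v u ∧ ∀ w ∈ S, w ≠ u → ¬adj X Y v w

open Classical in
lemma PI_iso {S T : Finset α} (h : Iso X Y S T) :
    (S.filter (PI X Y S)).card = (T.filter (PI X Y T)).card := by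
  obtain ⟨n, f, g, a1, a2, a3, a4, a5, a6⟩ := h
  refine cnt_eq a1 a2 a3 a4 fun i => ?_
  simp only [PI, adj, sw, nw, a3, a4, exists_exists_eq_and, a5, a6]

lemma Star_iso {S T : Finset α} (h : Iso X Y S T) : Star X Y S ↔ Star X Y T := by
  obtain ⟨n, f, g, a1, a2, a3, a4, a5, a6⟩ := h
  simp only [Star, adj, nw, a3, a4, exists_exists_eq_and, forall_exists_index,
    forall_apply_eq_imp_iff, a5, a6, ne_eq, a1.eq_iff, a2.eq_iff]

lemma rich_inc {n m : ℕ} (hn : 3 ≤ n) (hm : n ≤ m) (a : ℕ → α)
    (ha : ∀ i j, i < j → j ≤ m + n → sw X Y (a i) (a j)) (h : α)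
    (hh : ∀ j ≤ m + n, nw X Y (a j) h) (y : α) (hy : adj X Y y (a m))
    (hz : ∀ j, m < j → j ≤ m + n → sw X Y y (a j)) : Rich X Y n := by
  classical
  have hne : ∀ t ≤ m + n, ∀ i j, i < j → j ≤ t → a i ≠ a j := fun t ht i j h1 h2 e => by
    have := (ha i j h1 (by omega)).1
    rw [e] at this
    omega
  have hna : ∀ k ≤ m + n, ∀ l ≤ m + n, ¬adj X Y (a k) (a l) := fun k hk l hl e => by
    rcases lt_trichotomy k l with h1 | h1 | h1
    · have := ha k l h1 hl
      simp only [adj, sw, nw] at this e
      omega
    · subst h1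
      simp only [adj, nw] at e
      omega
    · have := ha l k h1 hk
      simp only [adj, sw, nw] at this e
      omega
  have hya : ∀ k ≤ m + n, a k ≠ y := fun k hk e => hna k hk m (by omega) (e ▸ hy)
  have hha : ∀ k ≤ m + n, a k ≠ h := fun k hk e => by
    have := (hh k hk).1
    rw [e] at this
    omega
  have z1 := hz (m + 1) (by omega) (by omega)
  have z2 := hh (m + 1) (by omega)
  have z3 := hh m (by omega)
  have hyh : h ≠ y := fun e => by
    rw [← e] at z1
    simp only [sw, nw] at z1 z2
    omega
  let F : ℕ → Finset α := fun i =>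
    if i = n - 2 then insert h (seg a 0 (n - 2))
    else insert h (insert y (seg a (m - (n - 3 - i)) (m + i)))
  have hJ : ∀ i < n - 2, ((F i).filter (PI X Y (F i))).card = i ∧ ¬Star X Y (F i) := by
    intro i hi
    have h0 : i ≠ n - 2 := by omega
    simp only [F, h0, if_false]
    set S := insert h (insert y (seg a (m - (n - 3 - i)) (m + i))) with hS
    have hm' : a m ∈ S :=
      mem_insert_of_mem (mem_insert_of_mem (mem_seg.2 ⟨m, by omega, by omega, rfl⟩))
    have hy' : y ∈ S := mem_insert_of_mem (mem_insert_self _ _)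
    have hh' : h ∈ S := mem_insert_self _ _
    have hmem : ∀ u ∈ S, u = h ∨ u = y ∨ ∃ k ≤ m + i, a k = u := fun u hu => by
      rcases mem_insert.1 hu with e | hu
      · exact Or.inl e
      rcases mem_insert.1 hu with e | hu
      · exact Or.inr (Or.inl e)
      obtain ⟨k, _, k2, e⟩ := mem_seg.1 hu
      exact Or.inr (Or.inr ⟨k, k2, e⟩)
    constructor
    · have : S.filter (PI X Y S) = seg a (m + 1) (m + i) := by
        ext u
        rw [mem_filter]
        constructor
        · rintro ⟨hu, v, hv, w, hw, h1, h2, h3⟩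
          have key : ∀ v ∈ S, sw X Y v u → (u = h → v = y) ∧
              ((u = y ∨ ∃ k ≤ m, a k = u) → ∃ l ≤ m + n, a l = v) := by
            intro v hv hs
            rcases hmem v hv with e | e | ⟨l, hl, e⟩
            · rw [e] at hs
              refine ⟨fun e2 => absurd (e2 ▸ hs.1) (lt_irrefl _), ?_⟩
              rintro (e2 | ⟨k, hk, e2⟩)
              · rw [e2] at hs
                simp only [sw, nw] at hs z1 z2
                omega
              · have := hh k (by omega)
                rw [e2] at this
                simp only [sw, nw] at hs this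
                omega
            · refine ⟨fun _ => e, ?_⟩
              rw [e] at hs
              rintro (e2 | ⟨k, hk, e2⟩)
              · exact absurd (e2 ▸ hs.1) (lt_irrefl _)
              · rw [← e2] at hs
                rcases (by omega : k < m ∨ k = m) with h4 | h4
                · have := ha k m h4 (by omega)
                  simp only [adj, sw, nw] at hs this hy
                  omega
                · rw [h4] at hs
                  simp only [adj, sw, nw] at hs hy
                  omega
            · refine ⟨fun e2 => ?_, fun _ => ⟨l, by omega, e⟩⟩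
              have := hh l (by omega)
              rw [e, ← e2] at this
              simp only [sw, nw] at hs this
              omega
          have fin : ¬(u = y ∨ ∃ k ≤ m, a k = u) := fun hc => by
            obtain ⟨l, hl, rfl⟩ := (key v hv h2).2 hc
            obtain ⟨o, ho, rfl⟩ := (key w hw h3).2 hc
            exact hna l hl o ho h1
          rcases hmem u hu with e | e | ⟨k, hk, e⟩
          · rw [(key v hv h2).1 e, (key w hw h3).1 e] at h1
            simp only [adj, nw] at h1
            omega
          · exact absurd (Or.inl e) fin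
          · refine mem_seg.2 ⟨k, ?_, hk, e⟩
            by_contra hc
            exact fin (Or.inr ⟨k, by omega, e⟩)
        · intro hu
          obtain ⟨k, k1, k2, rfl⟩ := mem_seg.1 hu
          exact ⟨mem_insert_of_mem (mem_insert_of_mem (mem_seg.2 ⟨k, by omega, k2, rfl⟩)),
            y, hy', a m, hm', hy, hz k (by omega) (by omega), ha m k (by omega) (by omega)⟩
      rw [this, card_seg (hne _ (by omega))]
      omega
    · rintro ⟨u, hu, hP⟩
      by_cases e : h = u
      · exact (hP y hy' (e ▸ hyh.symm)).2 _ hm' (e ▸ hha m (by omega)) hy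
      · by_cases e2 : a m = u
        · have := (hP h hh' e).1
          rw [← e2] at this
          simp only [nw] at this z3
          omega
        · exact (hP _ hm' e2).2 h hh' e (Or.inl z3)
  have hS : Star X Y (F (n - 2)) := by
    simp only [F, if_true]
    refine ⟨h, mem_insert_self _ _, fun v hv e => ?_⟩
    obtain ⟨k, _, k2, rfl⟩ := mem_seg.1 ((mem_insert.1 hv).resolve_left e)
    refine ⟨hh k (by omega), fun w hw e2 => ?_⟩
    obtain ⟨l, _, l2, rfl⟩ := mem_seg.1 ((mem_insert.1 hw).resolve_left e2)
    exact hna k (by omega) l (by omega)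
  refine ⟨F, fun i hi => ?_, fun i hi j hj hI => ?_⟩
  · by_cases h0 : i = n - 2
    · simp only [F, h0, if_true]
      refine ⟨?_, ?_⟩
      · rw [card_insert_of_notMem, card_seg (hne _ (by omega))]
        · omega
        · intro h
          obtain ⟨k, _, k2, e⟩ := mem_seg.1 h
          exact hha k (by omega) e
      · refine conn_core (c := h) (e := a 0) (mem_insert_self _ _)
          (mem_insert_of_mem (mem_seg.2 ⟨0, le_rfl, by omega, rfl⟩)) (Or.inr (hh 0 (by omega))) ?_
        intro x hx
        rcases mem_insert.1 hx with e | hx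
        · exact Or.inl e
        · obtain ⟨k, _, k2, rfl⟩ := mem_seg.1 hx
          exact Or.inr (Or.inl (Or.inl (hh k (by omega))))
    · simp only [F, h0, if_false]
      refine ⟨?_, ?_⟩
      · rw [card_insert_of_notMem, card_insert_of_notMem, card_seg (hne _ (by omega))]
        · omega
        · intro h
          obtain ⟨k, _, k2, e⟩ := mem_seg.1 h
          exact hya k (by omega) e
        · intro h1
          rcases mem_insert.1 h1 with e | h1
          · exact hyh e
          · obtain ⟨k, _, k2, e⟩ := mem_seg.1 h1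
            exact hha k (by omega) e
      · refine conn_core (c := h) (e := a m) (mem_insert_self _ _)
          (mem_insert_of_mem (mem_insert_of_mem (mem_seg.2 ⟨m, by omega, by omega, rfl⟩)))
          (Or.inr z3) ?_
        intro x hx
        rcases mem_insert.1 hx with e | hx
        · exact Or.inl e
        rcases mem_insert.1 hx with e | hx
        · exact Or.inr (Or.inr (e ▸ hy))
        · obtain ⟨k, _, k2, rfl⟩ := mem_seg.1 hx
          exact Or.inr (Or.inl (Or.inl (hh k (by omega))))
  · have e1 := PI_iso hI
    have e2 := Star_iso hI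
    by_cases a1 : i = n - 2 <;> by_cases a2 : j = n - 2
    · omega
    · exact absurd (e2.1 (a1 ▸ hS)) (hJ j (by omega)).2
    · exact absurd (e2.2 (a2 ▸ hS)) (hJ i (by omega)).2
    · rwa [(hJ i (by omega)).1, (hJ j (by omega)).1] at e1

lemma rich_inc1 {n m : ℕ} (hn : 3 ≤ n) (hm : n ≤ m) (a : ℕ → α)
    (ha : ∀ i j, i < j → j ≤ m + n → sw X Y (a i) (a j)) (h : α)
    (hh : (∀ j ≤ m + n, nw X Y (a j) h) ∨ ∀ j ≤ m + n, nw X Y h (a j)) (y : α)
    (hy : adj X Y y (a m)) (hz : ∀ j, m < j → j ≤ m + n → sw X Y y (a j)) : Rich X Y n := by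
  rcases hh with hh | hh
  · exact rich_inc hn hm a ha h hh y hy hz
  · refine Rich.swap (rich_inc hn hm a (fun i j h1 h2 => (ha i j h1 h2).symm) h
      (fun j hj => (hh j hj).symm) y ?_ (fun j h1 h2 => (hz j h1 h2).symm))
    simp only [adj, nw] at hy ⊢
    omega

/-- All four orientations. -/
lemma rich_inc' {n m : ℕ} (hn : 3 ≤ n) (hm : n ≤ m) (a : ℕ → α)
    (ha : ∀ i j, i < j → j ≤ m + n → sw X Y (a i) (a j)) (h : α)
    (hh : (∀ j ≤ m + n, nw X Y (a j) h) ∨ ∀ j ≤ m + n, nw X Y h (a j)) (y : α)
    (hy : adj X Y y (a m))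
    (hz : (∀ j, m < j → j ≤ m + n → sw X Y y (a j)) ∨ ∀ j < m, sw X Y (a j) y) : Rich X Y n := by
  rcases hz with hz | hz
  · exact rich_inc1 hn hm a ha h hh y hy hz
  · refine Rich.neg (rich_inc1 (m := n) hn le_rfl (fun i => a (m + n - i)) ?_ h ?_ y ?_ ?_)
    · intro i j h1 h2
      have := ha (m + n - j) (m + n - i) (by omega) (by omega)
      simp only [sw] at this ⊢
      omega
    · refine hh.symm.imp (fun hh j _ => ?_) (fun hh j _ => ?_) <;>
        have := hh (m + n - j) (by omega) <;> simp only [nw] at this ⊢ <;> omega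
    · simp only [adj, nw, Nat.add_sub_cancel] at hy ⊢
      omega
    · intro j h1 h2
      have := hz (m + n - j) (by omega)
      simp only [sw] at this ⊢
      omega

end Pool.Agent.P.MP_414122_co.Th
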