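import Pool.Agent.P.MP_414122_co.ThRec

/-! The series `x + x^2 + 2 x^3 + 3 x^4 + ...` and the strict lower bound. -/

namespace Pool.Agent.P.MP_414122_co.Th

open Finset Equiv Filter Topology

def bb (k : ℕ) : ℕ := if k = 1 then 1 else k - 1

lemma bb_sum (x : ℝ) (K : ℕ) : (1 - x) ^ 2 * ∑ k ∈ Icc 1 (K + 1), bb k * x ^ k =
    x * (1 - x) ^ 2 + x ^ 2 - (K + 1) * x ^ (K + 2) + K * x ^ (K + 3) := by
  induction K with
  | zero => simp [bb]; ring
  | succ K ih =>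
    rw [sum_Icc_succ_top (by omega), mul_add, ih]
    simp only [bb, show K + 1 + 1 ≠ 1 by omega, if_false, Nat.add_sub_cancel]
    push_cast
    ring

lemma bb_le {C : Fam} (h1 : Closed C) (h3 : IndExp C) (k : ℕ) : bb k ≤ ind C k := by
  have h4 : ∀ n, 3 ≤ n → n - 1 ≤ ind C n := fun n hn => by
    by_contra hc
    obtain ⟨K, hK⟩ := ind_poly h1 hn (not_le.1 hc)
    obtain ⟨N, -, hN⟩ := h3.big K
    exact absurd (hK N) (not_le.2 hN)
  obtain ⟨π, a1, a2⟩ : Nonempty {π : Perm (Fin 3) // π ∈ C 3 ∧ Indecomposable π} :=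
    (Nat.card_pos_iff.1 (lt_of_lt_of_le (by omega) (h4 3 le_rfl))).1
  rcases (by omega : k = 0 ∨ k = 1 ∨ k = 2 ∨ 3 ≤ k) with rfl | rfl | rfl | hk
  · simp [bb]
  · have : Nonempty {π : Perm (Fin 1) // π ∈ C 1 ∧ Indecomposable π} :=
      ⟨⟨1, h1 _ _ π _ a1 ⟨Fin.castLEOrderEmb (by omega), fun i j => by
        rw [Subsingleton.elim i j]; simp⟩, (indec_iff _).2 ⟨by omega, fun k _ _ => by omega⟩⟩⟩
    exact Nat.card_pos
  · obtain ⟨a, -, b, -, b1, b2, b3⟩ := conn_univ a2 (· = 0) ⟨0, mem_univ _, rfl⟩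
      ⟨1, mem_univ _, by simp⟩
    refine ind_of_rich (n := 2) h1 a1 ⟨fun _ => {a, b}, fun _ _ => ⟨card_pair fun e => b2 (e ▸ b1),
      conn_core (c := a) (e := b) (by simp) (by simp) b3 fun x hx => ?_⟩, fun i _ j _ _ => by omega⟩
    rcases mem_insert.1 hx with e | e
    · exact Or.inl e
    · exact Or.inr (Or.inl (mem_singleton.1 e ▸ adj_symm b3))
  · simpa only [bb, show k ≠ 1 by omega, if_false] using h4 k hk

lemma cnt_pos {C : Fam} (h1 : Closed C) (h2 : SumClosed C) (h3 : IndExp C) (n : ℕ) :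
    0 < cnt C n := by
  obtain ⟨π, a1, -⟩ : Nonempty {π : Perm (Fin 1) // π ∈ C 1 ∧ Indecomposable π} :=
    (Nat.card_pos_iff.1 (bb_le h1 h3 1)).1
  have : Nonempty (C n) := by
    induction n with
    | zero => exact ⟨⟨1, h1 _ _ π _ a1 ⟨Fin.castLEOrderEmb (by omega), fun i => i.elim0⟩⟩⟩
    | succ n ih =>
      obtain ⟨σ, hσ⟩ := ih
      exact ⟨⟨_, h2 _ _ _ _ hσ a1⟩⟩
  exact Nat.card_pos

theorem lower {θ : ℝ} (hθ : θ ^ 3 - 3 * θ ^ 2 + 2 * θ - 1 = 0) (h0 : 2 < θ) {C : Fam}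
    (h1 : Closed C) (h2 : SumClosed C) (h3 : IndExp C) {g : ℝ} (hg : HasRate C g) : θ < g := by
  obtain ⟨y, hy⟩ : ∃ y : ℝ, y = θ⁻¹ := ⟨_, rfl⟩
  have y0 : 0 < y := hy ▸ inv_pos.2 (by linarith)
  have y1 : y < 1 := hy ▸ inv_lt_one_of_one_lt₀ (by linarith)
  have y2 : y * (1 - y) ^ 2 + y ^ 2 = (1 - y) ^ 2 := by
    rw [hy]
    field_simp
    linarith
  obtain ⟨m, m1, m2⟩ := h3.big 1
  have m3 : bb m + 1 ≤ ind C m := by
    simp only [bb, show m ≠ 1 by omega, if_false]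
    have : m ≤ m * m := Nat.le_mul_self m
    rw [pow_one] at m2
    omega
  have hp : 0 < (1 - y) ^ 2 := pow_pos (by linarith) 2
  obtain ⟨K, K1, K2⟩ := (((tendsto_self_mul_const_pow_of_lt_one y0.le y1).eventually
    (gt_mem_nhds (mul_pos hp (pow_pos y0 m)))).and (eventually_ge_atTop m)).exists
  obtain ⟨K, rfl⟩ : ∃ K', K = K' + 1 := ⟨K - 1, by omega⟩
  have s1 : ∑ k ∈ Icc 1 (K + 1), bb k * y ^ k + y ^ m ≤ ∑ k ∈ Icc 1 (K + 1), ind C k * y ^ k := by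
    have hm : m ∈ Icc 1 (K + 1) := mem_Icc.2 ⟨by omega, K2⟩
    rw [← add_sum_erase _ _ hm, ← add_sum_erase _ _ hm]
    have a1 : ∑ k ∈ (Icc 1 (K + 1)).erase m, bb k * y ^ k ≤
        ∑ k ∈ (Icc 1 (K + 1)).erase m, ind C k * y ^ k :=
      sum_le_sum fun k _ => by
        have : (bb k : ℝ) ≤ ind C k := by exact_mod_cast bb_le h1 h3 k
        gcongr
    have a2 : (bb m + 1 : ℝ) * y ^ m ≤ ind C m * y ^ m := by
      have : (bb m + 1 : ℝ) ≤ ind C m := by exact_mod_cast m3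
      gcongr
    linarith
  have s2 : 1 < ∑ k ∈ Icc 1 (K + 1), bb k * y ^ k + y ^ m := by
    refine lt_of_mul_lt_mul_left ?_ hp.le
    rw [mul_add, bb_sum, y2]
    push_cast at K1
    have a1 : (K + 1) * y ^ (K + 2) ≤ (K + 1) * y ^ (K + 1) :=
      mul_le_mul_of_nonneg_left (pow_le_pow_of_le_one y0.le y1.le (by omega)) (by positivity)
    have a2 : 0 ≤ K * y ^ (K + 3) := by positivity
    linarith
  have hc : ContinuousAt (fun x : ℝ => ∑ k ∈ Icc 1 (K + 1), ind C k * x ^ k) y := by fun_prop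
  obtain ⟨x, ⟨x1, x2⟩, x3⟩ := ((((hc.eventually (lt_mem_nhds (s2.trans_le s1))).and
    (lt_mem_nhds y0)).filter_mono nhdsWithin_le_nhds).and
      (self_mem_nhdsWithin : Set.Iio y ∈ 𝓝[<] y)).exists
  have x4 : x < y := x3
  have := rate_lower hg x2 (pow_pos x2 _)
    (cnt_lower h1 h2 (cnt_pos h1 h2 h3) x2 (by linarith) x1.le)
  refine lt_of_lt_of_le ?_ this
  rw [← inv_inv θ, ← hy]
  exact inv_strictAnti₀ x2 x4

/-- For `x < 1/θ` the series leaves room for a geometric tail. -/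
lemma room {θ : ℝ} (hθ : θ ^ 3 - 3 * θ ^ 2 + 2 * θ - 1 = 0) (h0 : 2.32 < θ) {x : ℝ} (x0 : 0 < x)
    (x1 : x < θ⁻¹) : ∃ L, 2 ≤ L ∧ ∀ a : ℕ → ℕ, (∀ k ≤ L, a k ≤ bb k) → (∀ k, a k ≤ 4 * 2 ^ k) →
      ∀ K, ∑ k ∈ Icc 1 K, a k * x ^ k ≤ 1 := by
  obtain ⟨y, hy⟩ : ∃ y : ℝ, y = θ⁻¹ := ⟨_, rfl⟩
  have y1 : y < 0.44 := by
    rw [hy, inv_lt_comm₀ (by linarith) (by norm_num)]
    norm_num at h0 ⊢
    linarith
  have y2 : (1 - y) ^ 3 = y ^ 2 := by
    have : θ ≠ 0 := by linarith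
    rw [hy]
    field_simp
    linarith
  rw [← hy] at x1
  have hp : 0 < (1 - x) ^ 2 := pow_pos (by linarith) 2
  have d0 : 0 < (1 - x) ^ 3 - x ^ 2 := by
    have a1 : (1 - y) ^ 3 < (1 - x) ^ 3 := by
      have : 0 ≤ 1 - y := by linarith
      gcongr
    have a2 : x ^ 2 < y ^ 2 := by gcongr
    linarith
  obtain ⟨L, L1, L2⟩ := (((tendsto_pow_atTop_nhds_zero_of_lt_one
    (show 0 ≤ 20 / 9 * x by positivity) (by linarith)).eventually
    (gt_mem_nhds (show 0 < ((1 - x) ^ 3 - x ^ 2) / 40 by positivity))).and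
    (eventually_ge_atTop 2)).exists
  refine ⟨L, L2, fun a a1 a2 K => ?_⟩
  have t1 : ∀ k, a k * x ^ k ≤ bb k * x ^ k + 4 * (20 / 9 * x) ^ L * (9 / 10) ^ k := fun k => by
    by_cases hk : k ≤ L
    · have : (a k : ℝ) ≤ bb k := by exact_mod_cast a1 k hk
      exact le_add_of_le_of_nonneg (by gcongr) (by positivity)
    · have b1 : (a k : ℝ) ≤ 4 * 2 ^ k := by exact_mod_cast a2 k
      have b2 : (20 / 9 * x) ^ k ≤ (20 / 9 * x) ^ L :=
        pow_le_pow_of_le_one (by positivity) (by linarith) (by omega)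
      refine le_add_of_nonneg_of_le (by positivity) ?_
      calc a k * x ^ k ≤ 4 * 2 ^ k * x ^ k := by gcongr
        _ = 4 * (20 / 9 * x) ^ k * (9 / 10) ^ k := by
            rw [mul_assoc, mul_assoc, ← mul_pow, ← mul_pow]
            congr 2
            ring
        _ ≤ _ := by gcongr
  have t2 : ∀ K, ∑ k ∈ Icc 1 K, (9 / 10 : ℝ) ^ k = 9 - 9 * (9 / 10) ^ K := fun K => by
    induction K with
    | zero => simp
    | succ K ih =>
      rw [sum_Icc_succ_top (by omega), ih]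
      ring
  have t3 : (1 - x) ^ 2 * ∑ k ∈ Icc 1 K, bb k * x ^ k ≤ x * (1 - x) ^ 2 + x ^ 2 := by
    rcases K with _ | K
    · simp only [zero_lt_one, Icc_eq_empty_of_lt, sum_empty, mul_zero]
      positivity
    · rw [bb_sum]
      have : K * x ^ (K + 3) ≤ (K + 1) * x ^ (K + 2) :=
        mul_le_mul (by linarith) (pow_le_pow_of_le_one x0.le (by linarith) (by omega))
          (by positivity) (by positivity)
      linarith
  refine (sum_le_sum fun k _ => t1 k).trans ?_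
  rw [sum_add_distrib, ← mul_sum, t2]
  refine le_of_mul_le_mul_left ?_ hp
  have b1 : 0 ≤ (20 / 9 * x) ^ L := by positivity
  have b2 : (1 - x) ^ 2 ≤ 1 := by nlinarith
  have b3 : (1 - x) ^ 2 * (4 * (20 / 9 * x) ^ L * (9 - 9 * (9 / 10) ^ K)) ≤
      1 * (4 * (20 / 9 * x) ^ L * 9) := by
    have c1 : (0 : ℝ) ≤ (9 / 10) ^ K := by positivity
    have c2 : (9 / 10 : ℝ) ^ K ≤ 1 := pow_le_one₀ (by norm_num) (by norm_num)
    have c3 : (0 : ℝ) ≤ 9 - 9 * (9 / 10) ^ K := by linarith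
    gcongr
    linarith
  rw [mul_add]
  nlinarith

end Pool.Agent.P.MP_414122_co.Th
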