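import Pool.Agent.P.MP_414122_co.ThBreak

/-! An induced path of the inversion graph with a further point attached far from its ends. -/

namespace Pool.Agent.P.MP_414122_co.Th

open Finset

variable {α : Type*} {X Y : α → ℤ}

variable (X Y) in
structure IsPath (v : ℕ → α) (d : ℕ) : Prop where
  step : ∀ i < d, adj X Y (v i) (v (i + 1))
  far : ∀ i j, i + 2 ≤ j → j ≤ d → sw X Y (v i) (v j)

lemma IsPath.swap {v : ℕ → α} {d : ℕ} (h : IsPath X Y v d) : IsPath Y X v d :=
  ⟨fun i hi => by
    have := h.step i hi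
    simp only [adj, nw] at this ⊢
    omega, fun i j h1 h2 => (h.far i j h1 h2).symm⟩

lemma IsPath.nbr {v : ℕ → α} {d : ℕ} (h : IsPath X Y v d) {i j : ℕ} (hi : i ≤ d) (hj : j ≤ d)
    (e : adj X Y (v i) (v j)) : j = i + 1 ∨ i = j + 1 := by
  by_contra hc
  rcases (by omega : i + 2 ≤ j ∨ i = j ∨ j + 2 ≤ i) with h1 | h1 | h1
  · have := h.far i j h1 hj
    simp only [adj, nw, sw] at this e
    omega
  · subst h1
    simp only [adj, nw] at e
    omega
  · have := h.far j i h1 hi
    simp only [adj, nw, sw] at this e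
    omega

lemma IsPath.ne {v : ℕ → α} {d : ℕ} (h : IsPath X Y v d) {t : ℕ} (ht : t ≤ d) (i j : ℕ)
    (hij : i < j) (hj : j ≤ t) : v i ≠ v j := fun e => by
  rcases (by omega : i + 2 ≤ j ∨ j = i + 1) with h1 | h1
  · have := (h.far i j h1 (by omega)).1
    rw [e] at this
    omega
  · have := h.step i (by omega)
    rw [← h1, e] at this
    simp only [adj, nw] at this
    omega

variable (X Y) in
def PP (S : Finset α) (u : α) : Prop :=
  ∀ z ∈ S, (∃ a ∈ S, ∃ b ∈ S, ∃ c ∈ S, a ≠ b ∧ a ≠ c ∧ b ≠ c ∧ adj X Y z a ∧ adj X Y z b ∧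
    adj X Y z c) → sw X Y u z

variable (X Y) in
def Left (S : Finset α) : Prop :=
  ∃ u ∈ S, (∀ w ∈ S, w ≠ u → X u < X w) ∧ ∃ a ∈ S, ∃ b ∈ S, a ≠ b ∧ adj X Y u a ∧ adj X Y u b

open Classical in
lemma PP_iso {S T : Finset α} (h : Iso X Y S T) :
    (S.filter (PP X Y S)).card = (T.filter (PP X Y T)).card := by
  obtain ⟨n, f, g, a1, a2, a3, a4, a5, a6⟩ := h
  refine cnt_eq a1 a2 a3 a4 fun i => ?_
  simp only [PP, adj, sw, nw, a3, a4, exists_exists_eq_and, forall_exists_index,
    forall_apply_eq_imp_iff, a5, a6, ne_eq, a1.eq_iff, a2.eq_iff, and_imp]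

lemma Left_iso {S T : Finset α} (h : Iso X Y S T) : Left X Y S ↔ Left X Y T := by
  obtain ⟨n, f, g, a1, a2, a3, a4, a5, a6⟩ := h
  simp only [Left, adj, nw, a3, a4, exists_exists_eq_and, forall_exists_index,
    forall_apply_eq_imp_iff, a5, a6, ne_eq, a1.eq_iff, a2.eq_iff]

lemma IsPath.left_iff {v : ℕ → α} {d : ℕ} (h : IsPath X Y v d) {s t : ℕ} (hs : s + 2 ≤ t)
    (ht : t ≤ d) : Left X Y (seg v s t) ↔ nw X Y (v (s + 1)) (v s) := by
  have s0 := h.step s (by omega)
  have s1 := h.step (s + 1) (by omega)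
  have s2 := h.far s (s + 2) le_rfl (by omega)
  constructor
  · rintro ⟨u, hu, h1, a, ha, b, hb, h2, h3, h4⟩
    by_contra hc
    have e : v s = u := by
      by_contra e
      have h5 := h1 _ (mem_seg.2 ⟨s, le_rfl, by omega, rfl⟩) e
      obtain ⟨k, k1, k2, rfl⟩ := mem_seg.1 hu
      rcases (by omega : k = s ∨ k = s + 1 ∨ s + 2 ≤ k) with h6 | h6 | h6
      · exact e (h6 ▸ rfl)
      · subst h6
        simp only [adj, nw] at s0 hc
        omega
      · have := (h.far s k h6 (by omega)).1
        omega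
    subst e
    obtain ⟨k, k1, k2, rfl⟩ := mem_seg.1 ha
    obtain ⟨l, l1, l2, rfl⟩ := mem_seg.1 hb
    have := h.nbr (by omega) (by omega) h3
    have := h.nbr (by omega) (by omega) h4
    exact h2 (congrArg v (by omega))
  · intro h0
    refine ⟨v (s + 1), mem_seg.2 ⟨_, by omega, by omega, rfl⟩, fun w hw e => ?_, v s,
      mem_seg.2 ⟨_, le_rfl, by omega, rfl⟩, v (s + 2), mem_seg.2 ⟨_, by omega, hs, rfl⟩,
      h.ne ht _ _ (by omega) hs, adj_symm s0, s1⟩
    obtain ⟨k, k1, k2, rfl⟩ := mem_seg.1 hw
    rcases (by omega : k = s ∨ k = s + 1 ∨ k = s + 2 ∨ s + 1 + 2 ≤ k) with h6 | h6 | h6 | h6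
    · exact h6 ▸ h0.1
    · exact absurd (h6 ▸ rfl) e
    · subst h6
      simp only [adj, nw, sw] at h0 s1 s2 ⊢
      omega
    · exact (h.far _ k h6 (by omega)).1

lemma rich_path (hX : Function.Injective X) (hY : Function.Injective Y) {n : ℕ} (hn : 3 ≤ n)
    {v : ℕ → α} {d : ℕ} (h : IsPath X Y v d) (x : α) (hx : ∀ k ≤ d, v k ≠ x) (i0 : ℕ)
    (h0 : adj X Y x (v i0)) (h1 : ∀ k < i0, ¬adj X Y x (v k)) (hl : n ≤ i0) (hr : i0 + n ≤ d) :
    Rich X Y n := by
  classical
  have hsw : ∀ j, j + 2 ≤ i0 → sw X Y (v j) x := fun j hj => by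
    have a1 := h1 j (by omega)
    have a2 := h.far j i0 hj (by omega)
    have a3 : X (v j) ≠ X x := fun e => hx j (by omega) (hX e)
    have a4 : Y (v j) ≠ Y x := fun e => hx j (by omega) (hY e)
    simp only [adj, nw, sw] at a1 a2 h0 ⊢
    omega
  let F : ℕ → Finset α := fun c =>
    if c < 2 then seg v c (c + n - 1) else insert x (seg v (i0 - (c - 1)) (i0 - (c - 1) + n - 2))
  have hJ : ∀ c < n - 1, ((F c).filter (PP X Y (F c))).card = if c < 2 then n else c - 2 := by
    intro c hc
    by_cases c2 : c < 2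
    · simp only [F, c2, if_true]
      rw [filter_true_of_mem, card_seg (h.ne (by omega))]
      · omega
      · rintro u _ z hz ⟨a, ha, b, hb, e, he, a1, a2, a3, a4, a5, a6⟩
        obtain ⟨k, _, k2, rfl⟩ := mem_seg.1 hz
        obtain ⟨ka, _, _, rfl⟩ := mem_seg.1 ha
        obtain ⟨kb, _, _, rfl⟩ := mem_seg.1 hb
        obtain ⟨ke, _, _, rfl⟩ := mem_seg.1 he
        have := h.nbr (by omega) (by omega) a4
        have := h.nbr (by omega) (by omega) a5
        have := h.nbr (by omega) (by omega) a6
        rcases (by omega : ka = kb ∨ ka = ke ∨ kb = ke) with e | e | e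
        · exact absurd (congrArg v e) a1
        · exact absurd (congrArg v e) a2
        · exact absurd (congrArg v e) a3
    · simp only [F, c2, if_false]
      set S := insert x (seg v (i0 - (c - 1)) (i0 - (c - 1) + n - 2)) with hS
      have hin : ∀ k, i0 - (c - 1) ≤ k → k ≤ i0 - (c - 1) + n - 2 → v k ∈ S := fun k k1 k2 =>
        mem_insert_of_mem (mem_seg.2 ⟨k, k1, k2, rfl⟩)
      have : S.filter (PP X Y S) = seg v (i0 - (c - 1)) (i0 - 2) := by
        ext u
        rw [mem_filter]
        constructor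
        · rintro ⟨hu, hP⟩
          have s0 := h.step (i0 - 1) (by omega)
          rw [show i0 - 1 + 1 = i0 by omega] at s0
          have key := hP (v i0) (hin _ (by omega) (by omega)) ⟨v (i0 - 1),
            hin _ (by omega) (by omega), v (i0 + 1), hin _ (by omega) (by omega), x,
            mem_insert_self _ _, h.ne le_rfl _ _ (by omega) (by omega), hx _ (by omega),
            hx _ (by omega), adj_symm s0, h.step _ (by omega), adj_symm h0⟩
          rcases mem_insert.1 hu with e | hu
          · rw [e] at key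
            simp only [adj, nw, sw] at key h0
            omega
          · obtain ⟨k, k1, k2, rfl⟩ := mem_seg.1 hu
            refine mem_seg.2 ⟨k, k1, ?_, rfl⟩
            by_contra hc
            rcases (by omega : k = i0 - 1 ∨ k = i0 ∨ k = i0 + 1 ∨ i0 + 2 ≤ k) with e | e | e | e
            · subst e
              simp only [adj, nw, sw] at key s0
              omega
            · subst e
              exact lt_irrefl _ key.1
            · have := h.step i0 (by omega)
              subst e
              simp only [adj, nw, sw] at key this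
              omega
            · have := (h.far i0 k e (by omega)).1
              have := key.1
              omega
        · intro hu
          obtain ⟨k, k1, k2, rfl⟩ := mem_seg.1 hu
          refine ⟨hin k k1 (by omega), ?_⟩
          rintro z hz ⟨a, ha, b, hb, e, he, a1, a2, a3, a4, a5, a6⟩
          rcases mem_insert.1 hz with e | hz
          · exact e ▸ hsw k (by omega)
          obtain ⟨l, l1, l2, rfl⟩ := mem_seg.1 hz
          by_cases hl2 : i0 ≤ l
          · exact h.far k l (by omega) (by omega)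
          exfalso
          have key : ∀ a ∈ S, adj X Y (v l) a → ∃ k, v k = a ∧ (k = l + 1 ∨ l = k + 1) := by
            intro a ha h2
            rcases mem_insert.1 ha with e | ha
            · exact absurd (adj_symm (e ▸ h2)) (h1 l (by omega))
            · obtain ⟨k, _, _, rfl⟩ := mem_seg.1 ha
              exact ⟨k, rfl, h.nbr (by omega) (by omega) h2⟩
          obtain ⟨ka, rfl, _⟩ := key a ha a4
          obtain ⟨kb, rfl, _⟩ := key b hb a5
          obtain ⟨ke, rfl, _⟩ := key e he a6
          rcases (by omega : ka = kb ∨ ka = ke ∨ kb = ke) with e | e | e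
          · exact a1 (congrArg v e)
          · exact a2 (congrArg v e)
          · exact a3 (congrArg v e)
      rw [this, card_seg (h.ne (by omega))]
      omega
  have hL : ¬(Left X Y (F 0) ↔ Left X Y (F 1)) := by
    simp only [F, show 0 < 2 by omega, show 1 < 2 by omega, if_true]
    rw [h.left_iff (by omega) (by omega), h.left_iff (by omega) (by omega)]
    have s0 := h.step 0 (by omega)
    have s1 := h.step 1 (by omega)
    have s2 := h.far 0 2 le_rfl (by omega)
    simp only [adj, nw, sw, zero_add, Nat.reduceAdd] at s0 s1 s2 ⊢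
    omega
  refine ⟨F, fun c hc => ?_, fun i hi j hj hI => ?_⟩
  · by_cases c2 : c < 2
    · simp only [F, c2, if_true]
      refine ⟨by rw [card_seg (h.ne (by omega))]; omega, conn_of_path v c (c + n - 1)
        (fun i _ _ => h.step i (by omega)) (fun i a1 a2 => mem_seg.2 ⟨i, a1, a2, rfl⟩) ?_⟩
      intro z hz
      obtain ⟨k, k1, k2, rfl⟩ := mem_seg.1 hz
      exact ⟨k, k1, k2, Or.inl rfl⟩
    · simp only [F, c2, if_false]
      refine ⟨?_, conn_of_path v (i0 - (c - 1)) (i0 - (c - 1) + n - 2)
        (fun i _ _ => h.step i (by omega))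
        (fun i a1 a2 => mem_insert_of_mem (mem_seg.2 ⟨i, a1, a2, rfl⟩)) ?_⟩
      · rw [card_insert_of_notMem, card_seg (h.ne (by omega))]
        · omega
        · intro h2
          obtain ⟨k, _, k2, e⟩ := mem_seg.1 h2
          exact hx k (by omega) e
      · intro z hz
        rcases mem_insert.1 hz with e | hz
        · exact ⟨i0, by omega, by omega, Or.inr (e ▸ h0)⟩
        · obtain ⟨k, k1, k2, rfl⟩ := mem_seg.1 hz
          exact ⟨k, k1, k2, Or.inl rfl⟩
  · have e1 := PP_iso hI
    have e2 := Left_iso hI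
    rw [hJ i hi, hJ j hj] at e1
    by_contra hc
    split_ifs at e1 with a1 a2 a2
    · rcases (by omega : (i = 0 ∧ j = 1) ∨ (i = 1 ∧ j = 0)) with ⟨rfl, rfl⟩ | ⟨rfl, rfl⟩
      · exact hL e2
      · exact hL e2.symm
    all_goals omega

end Pool.Agent.P.MP_414122_co.Th
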