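import Pool.Agent.P.MP_414122_co.Main

/-! Point sets in the plane, their inversion graphs, and three sources of `n - 1` different
connected patterns on `n` points. -/

namespace Pool.Agent.P.MP_414122_co.Th

open Finset

variable {α : Type*} (X Y : α → ℤ)

def sw (a b : α) : Prop := X a < X b ∧ Y a < Y b

def nw (a b : α) : Prop := X a < X b ∧ Y b < Y a

def adj (a b : α) : Prop := nw X Y a b ∨ nw X Y b a

def Conn (S : Finset α) : Prop :=
  ∀ T : α → Prop, (∃ a ∈ S, T a) → (∃ b ∈ S, ¬T b) →
    ∃ a ∈ S, ∃ b ∈ S, T a ∧ ¬T b ∧ adj X Y a b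

def Iso (S T : Finset α) : Prop :=
  ∃ (n : ℕ) (f g : Fin n → α), Function.Injective f ∧ Function.Injective g ∧
    (∀ b, b ∈ S ↔ ∃ i, f i = b) ∧ (∀ b, b ∈ T ↔ ∃ i, g i = b) ∧
    (∀ i j, X (f i) < X (f j) ↔ X (g i) < X (g j)) ∧ ∀ i j, Y (f i) < Y (f j) ↔ Y (g i) < Y (g j)

def Rich (n : ℕ) : Prop :=
  ∃ F : ℕ → Finset α, (∀ i < n - 1, (F i).card = n ∧ Conn X Y (F i)) ∧
    ∀ i < n - 1, ∀ j < n - 1, Iso X Y (F i) (F j) → i = j

variable {X Y}

lemma adj_symm {a b : α} (h : adj X Y a b) : adj X Y b a := h.symm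

lemma Rich.swap {n : ℕ} (h : Rich Y X n) : Rich X Y n := by
  obtain ⟨F, h1, h2⟩ := h
  refine ⟨F, fun i hi => ⟨(h1 i hi).1, fun T ha hb => ?_⟩, fun i hi j hj hI => h2 i hi j hj ?_⟩
  · obtain ⟨a, ha, b, hb, h3, h4, h5⟩ := (h1 i hi).2 T ha hb
    refine ⟨a, ha, b, hb, h3, h4, ?_⟩
    simp only [adj, nw] at h5 ⊢
    omega
  · obtain ⟨n, f, g, a1, a2, a3, a4, a5, a6⟩ := hI
    exact ⟨n, f, g, a1, a2, a3, a4, a6, a5⟩

lemma Rich.neg {n : ℕ} (h : Rich (fun a => -X a) (fun a => -Y a) n) : Rich X Y n := by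
  obtain ⟨F, h1, h2⟩ := h
  refine ⟨F, fun i hi => ⟨(h1 i hi).1, fun T ha hb => ?_⟩, fun i hi j hj hI => h2 i hi j hj ?_⟩
  · obtain ⟨a, ha, b, hb, h3, h4, h5⟩ := (h1 i hi).2 T ha hb
    refine ⟨a, ha, b, hb, h3, h4, ?_⟩
    simp only [adj, nw] at h5 ⊢
    omega
  · obtain ⟨n, f, g, a1, a2, a3, a4, a5, a6⟩ := hI
    exact ⟨n, f, g, a1, a2, a3, a4, fun i j => by simpa using a5 j i,
      fun i j => by simpa using a6 j i⟩

lemma conn_of_path {S : Finset α} (v : ℕ → α) (s t : ℕ)
    (hv : ∀ i, s ≤ i → i < t → adj X Y (v i) (v (i + 1))) (hm : ∀ i, s ≤ i → i ≤ t → v i ∈ S)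
    (hx : ∀ x ∈ S, ∃ i, s ≤ i ∧ i ≤ t ∧ (x = v i ∨ adj X Y x (v i))) : Conn X Y S := by
  rintro T ⟨a, ha, hTa⟩ ⟨b, hb, hTb⟩
  by_contra hc
  have key : ∀ a ∈ S, ∀ b ∈ S, adj X Y a b → (T a ↔ T b) := fun a ha b hb h =>
    ⟨fun h1 => by_contra fun h2 => hc ⟨a, ha, b, hb, h1, h2, h⟩,
      fun h1 => by_contra fun h2 => hc ⟨b, hb, a, ha, h1, h2, adj_symm h⟩⟩
  have k2 : ∀ i, s ≤ i → i ≤ t → (T (v i) ↔ T (v s)) := by
    intro i hi
    induction i, hi using Nat.le_induction with
    | base => exact fun _ => Iff.rfl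
    | succ i hi ih =>
      intro h
      exact (key _ (hm i hi (by omega)) _ (hm (i + 1) (by omega) h) (hv i hi h)).symm.trans
        (ih (by omega))
  have k3 : ∀ x ∈ S, (T x ↔ T (v s)) := fun x hxS => by
    obtain ⟨i, h1, h2, h3 | h3⟩ := hx x hxS
    · rw [h3]; exact k2 i h1 h2
    · exact (key x hxS _ (hm i h1 h2) h3).trans (k2 i h1 h2)
  exact hTb ((k3 b hb).2 ((k3 a ha).1 hTa))

lemma conn_core {S : Finset α} {c e : α} (hc : c ∈ S) (he : e ∈ S) (h : adj X Y c e)
    (hx : ∀ x ∈ S, x = c ∨ adj X Y x c ∨ adj X Y x e) : Conn X Y S := by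
  refine conn_of_path (fun i => if i = 0 then c else e) 0 1 ?_ ?_ ?_
  · intro i _ hi
    obtain rfl : i = 0 := by omega
    simpa using h
  · intro i _ _
    split_ifs <;> assumption
  · intro x hxS
    rcases hx x hxS with h1 | h1 | h1
    · exact ⟨0, le_rfl, by omega, Or.inl (by simpa using h1)⟩
    · exact ⟨0, le_rfl, by omega, Or.inr (by simpa using h1)⟩
    · exact ⟨1, by omega, le_rfl, Or.inr (by simpa using h1)⟩

open Classical in
lemma cnt_eq {S T : Finset α} {n : ℕ} {f g : Fin n → α} (hf : Function.Injective f)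
    (hg : Function.Injective g) (hS : ∀ b, b ∈ S ↔ ∃ i, f i = b) (hT : ∀ b, b ∈ T ↔ ∃ i, g i = b)
    {P Q : α → Prop} (h : ∀ i, P (f i) ↔ Q (g i)) : (S.filter P).card = (T.filter Q).card := by
  have e1 : S.filter P = (univ.filter fun i => P (f i)).image f := by
    ext b
    simp only [mem_filter, hS, mem_image, mem_univ, true_and]
    exact ⟨fun ⟨⟨i, h1⟩, h2⟩ => ⟨i, h1 ▸ h2, h1⟩, fun ⟨i, h1, h2⟩ => ⟨⟨i, h2⟩, h2 ▸ h1⟩⟩
  have e2 : T.filter Q = (univ.filter fun i => P (f i)).image g := by
    ext b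
    simp only [mem_filter, hT, mem_image, mem_univ, true_and, h]
    exact ⟨fun ⟨⟨i, h1⟩, h2⟩ => ⟨i, h1 ▸ h2, h1⟩, fun ⟨i, h1, h2⟩ => ⟨⟨i, h2⟩, h2 ▸ h1⟩⟩
  rw [e1, e2, card_image_of_injective _ hf, card_image_of_injective _ hg]

open Classical in
/-- The points `a s, ..., a t`. -/
noncomputable def seg (a : ℕ → α) (s t : ℕ) : Finset α := (Icc s t).image a

lemma mem_seg {a : ℕ → α} {s t : ℕ} {x : α} : x ∈ seg a s t ↔ ∃ k, s ≤ k ∧ k ≤ t ∧ a k = x := by
  simp [seg, and_assoc]

lemma card_seg {a : ℕ → α} {s t : ℕ} (h : ∀ i j, i < j → j ≤ t → a i ≠ a j) :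
    (seg a s t).card = t + 1 - s := by
  classical
  unfold seg
  rw [card_image_of_injOn, Nat.card_Icc]
  intro i hi j hj e
  simp only [coe_Icc, Set.mem_Icc] at hi hj
  rcases lt_trichotomy i j with h1 | h1 | h1
  · exact absurd e (h i j h1 hj.2)
  · exact h1
  · exact absurd e.symm (h j i h1 hi.2)

/-! A decreasing chain with a point out of line. -/

variable (X Y) in
def PD (S : Finset α) (u : α) : Prop :=
  ∀ v ∈ S, ∀ w ∈ S, sw X Y v w → nw X Y v u ∧ nw X Y w u

open Classical in
lemma PD_iso {S T : Finset α} (h : Iso X Y S T) :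
    (S.filter (PD X Y S)).card = (T.filter (PD X Y T)).card := by
  obtain ⟨n, f, g, a1, a2, a3, a4, a5, a6⟩ := h
  refine cnt_eq a1 a2 a3 a4 fun i => ?_
  simp only [PD, sw, nw, a3, a4, forall_exists_index, forall_apply_eq_imp_iff, a5, a6]

lemma rich_dec {n m : ℕ} (hn : 2 ≤ n) (hm : n ≤ m) (a : ℕ → α)
    (ha : ∀ i j, i < j → j ≤ m + n → nw X Y (a i) (a j)) (y : α)
    (hy : sw X Y y (a m) ∨ sw X Y (a m) y) (hz : ∀ j, m < j → j ≤ m + n → nw X Y y (a j)) :
    Rich X Y n := by
  classical
  have hne : ∀ t ≤ m + n, ∀ i j, i < j → j ≤ t → a i ≠ a j := fun t ht i j h1 h2 e => by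
    have := (ha i j h1 (by omega)).1
    rw [e] at this
    omega
  have hya : ∀ k ≤ m + n, a k ≠ y := fun k hk e => by
    rcases lt_trichotomy k m with h | h | h
    · have := ha k m h (by omega)
      rw [e] at this
      simp only [sw, nw] at this hy
      omega
    · rw [← e, h] at hy
      simp only [sw] at hy
      omega
    · have := hz k h hk
      rw [e] at this
      simp only [nw] at this
      omega
  let F : ℕ → Finset α := fun i =>
    if i = 0 then seg a 0 (n - 1) else insert y (seg a (m - (n - 2 - i)) (m + i))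
  have hJ : ∀ i < n - 1, ((F i).filter (PD X Y (F i))).card = if i = 0 then n else i := by
    intro i hi
    by_cases h0 : i = 0
    · simp only [F, h0, if_true]
      rw [filter_true_of_mem, card_seg (hne _ (by omega))]
      · omega
      · intro u _ v hv w hw hs
        obtain ⟨k, _, k2, rfl⟩ := mem_seg.1 hv
        obtain ⟨l, _, l2, rfl⟩ := mem_seg.1 hw
        exfalso
        rcases lt_trichotomy k l with h | h | h
        · have := ha k l h (by omega)
          simp only [sw, nw] at this hs
          omega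
        · subst h
          simp only [sw] at hs
          omega
        · have := ha l k h (by omega)
          simp only [sw, nw] at this hs
          omega
    · simp only [F, h0, if_false]
      have : (insert y (seg a (m - (n - 2 - i)) (m + i))).filter
          (PD X Y (insert y (seg a (m - (n - 2 - i)) (m + i)))) = seg a (m + 1) (m + i) := by
        ext u
        rw [mem_filter]
        constructor
        · rintro ⟨hu, hP⟩
          have hm' : a m ∈ insert y (seg a (m - (n - 2 - i)) (m + i)) :=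
            mem_insert_of_mem (mem_seg.2 ⟨m, by omega, by omega, rfl⟩)
          have h2 : nw X Y y u ∧ nw X Y (a m) u := by
            rcases hy with h | h
            · exact hP _ (mem_insert_self _ _) _ hm' h
            · exact (hP _ hm' _ (mem_insert_self _ _) h).symm
          rcases mem_insert.1 hu with rfl | hu
          · exact absurd h2.1.1 (lt_irrefl _)
          · obtain ⟨k, k1, k2, rfl⟩ := mem_seg.1 hu
            refine mem_seg.2 ⟨k, ?_, k2, rfl⟩
            by_contra hk
            rcases (by omega : k < m ∨ k = m) with h | h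
            · have := ha k m h (by omega)
              simp only [nw] at this h2
              omega
            · rw [h] at h2
              exact absurd h2.2.1 (lt_irrefl _)
        · intro hu
          obtain ⟨k, k1, k2, rfl⟩ := mem_seg.1 hu
          refine ⟨mem_insert_of_mem (mem_seg.2 ⟨k, by omega, k2, rfl⟩), ?_⟩
          have key : ∀ l ≤ m + i, sw X Y y (a l) ∨ sw X Y (a l) y → nw X Y (a l) (a k) := by
            intro l hl h
            refine ha l k ?_ (by omega)
            by_contra hc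
            have := hz l (by omega) (by omega)
            simp only [sw, nw] at this h
            omega
          have hyk := hz k (by omega) (by omega)
          intro v hv w hw hs
          rcases mem_insert.1 hv with rfl | hv <;> rcases mem_insert.1 hw with hw | hw
          · rw [hw] at hs
            exact absurd hs.1 (lt_irrefl _)
          · obtain ⟨l, _, l2, rfl⟩ := mem_seg.1 hw
            exact ⟨hyk, key l l2 (Or.inl hs)⟩
          · obtain ⟨l, _, l2, rfl⟩ := mem_seg.1 hv
            rw [hw] at hs ⊢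
            exact ⟨key l l2 (Or.inr hs), hyk⟩
          · obtain ⟨l, _, l2, rfl⟩ := mem_seg.1 hv
            obtain ⟨o, _, o2, rfl⟩ := mem_seg.1 hw
            exfalso
            rcases lt_trichotomy l o with h | h | h
            · have := ha l o h (by omega)
              simp only [sw, nw] at this hs
              omega
            · subst h
              exact absurd hs.1 (lt_irrefl _)
            · have := ha o l h (by omega)
              simp only [sw, nw] at this hs
              omega
      rw [this, card_seg (hne _ (by omega))]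
      omega
  have hadj : ∀ k l, k ≤ m + n → l ≤ m + n → a k = a l ∨ adj X Y (a k) (a l) := by
    intro k l hk hl
    rcases lt_trichotomy k l with h | h | h
    · exact Or.inr (Or.inl (ha k l h hl))
    · exact Or.inl (h ▸ rfl)
    · exact Or.inr (Or.inr (ha l k h hk))
  refine ⟨F, fun i hi => ?_, fun i hi j hj hI => ?_⟩
  · by_cases h0 : i = 0
    · simp only [F, h0, if_true]
      refine ⟨by rw [card_seg (hne _ (by omega))]; omega, ?_⟩
      refine conn_core (c := a 0) (e := a 1) (mem_seg.2 ⟨0, le_rfl, by omega, rfl⟩)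
        (mem_seg.2 ⟨1, by omega, by omega, rfl⟩) (Or.inl (ha 0 1 (by omega) (by omega))) ?_
      intro x hx
      obtain ⟨k, _, k2, rfl⟩ := mem_seg.1 hx
      exact (hadj k 0 (by omega) (by omega)).imp_right Or.inl
    · simp only [F, h0, if_false]
      refine ⟨?_, ?_⟩
      · rw [card_insert_of_notMem, card_seg (hne _ (by omega))]
        · omega
        · intro h
          obtain ⟨k, _, k2, e⟩ := mem_seg.1 h
          exact hya k (by omega) e
      · refine conn_core (c := a m) (e := a (m + 1))
          (mem_insert_of_mem (mem_seg.2 ⟨m, by omega, by omega, rfl⟩))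
          (mem_insert_of_mem (mem_seg.2 ⟨m + 1, by omega, by omega, rfl⟩))
          (Or.inl (ha _ _ (by omega) (by omega))) ?_
        intro x hx
        rcases mem_insert.1 hx with rfl | hx
        · exact Or.inr (Or.inr (Or.inl (hz _ (by omega) (by omega))))
        · obtain ⟨k, _, k2, rfl⟩ := mem_seg.1 hx
          exact (hadj k m (by omega) (by omega)).imp_right Or.inl
  · have := PD_iso hI
    rw [hJ i hi, hJ j hj] at this
    split_ifs at this <;> omega

/-- Both directions. -/
lemma rich_dec' {n m : ℕ} (hn : 2 ≤ n) (hm : n ≤ m) (a : ℕ → α)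
    (ha : ∀ i j, i < j → j ≤ m + n → nw X Y (a i) (a j)) (y : α)
    (hy : sw X Y y (a m) ∨ sw X Y (a m) y)
    (hz : (∀ j, m < j → j ≤ m + n → nw X Y y (a j)) ∨ ∀ j < m, nw X Y (a j) y) : Rich X Y n := by
  rcases hz with hz | hz
  · exact rich_dec hn hm a ha y hy hz
  · refine Rich.neg (rich_dec (m := n) hn le_rfl (fun i => a (m + n - i)) ?_ y ?_ ?_)
    · intro i j h1 h2
      have := ha (m + n - j) (m + n - i) (by omega) (by omega)
      simp only [nw] at this ⊢
      omega
    · simp only [sw, Nat.add_sub_cancel] at hy ⊢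
      omega
    · intro j h1 h2
      have := hz (m + n - j) (by omega)
      simp only [nw] at this ⊢
      omega

end Pool.Agent.P.MP_414122_co.Th
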