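import Pool.Agent.P.MP_414122_co.ThCount

/-! The counting recurrence of a sum closed class and its consequences for the growth rate. -/

namespace Pool.Agent.P.MP_414122_co.Th

open Finset Equiv Filter Topology

noncomputable def cnt (C : Fam) (n : ℕ) : ℕ := Nat.card (C n)

lemma contains_left {k m : ℕ} (σ : Perm (Fin k)) (τ : Perm (Fin m)) : Contains (dsum σ τ) σ :=
  ⟨Fin.castAddOrderEmb m, fun i j => by
    simp only [Fin.castAddOrderEmb_apply, dsum_left, Fin.lt_def, Fin.val_castAdd]⟩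

lemma contains_right {k m : ℕ} (σ : Perm (Fin k)) (τ : Perm (Fin m)) : Contains (dsum σ τ) τ :=
  ⟨Fin.natAddOrderEmb k, fun i j => by
    simp only [Fin.natAddOrderEmb_apply, dsum_right, Fin.lt_def, Fin.val_natAdd]
    omega⟩

lemma cut_dsum {k m : ℕ} (σ : Perm (Fin k)) (τ : Perm (Fin m)) {j : ℕ} (hj : j ≤ k) :
    Cut (dsum σ τ) j ↔ Cut σ j := by
  constructor
  · intro h a b h1 h2
    simpa only [dsum_left, Fin.lt_def, Fin.val_castAdd] using
      h (Fin.castAdd m a) (Fin.castAdd m b) h1 h2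
  · intro h a b h1 h2
    obtain ⟨a, rfl⟩ : ∃ a' : Fin k, a = Fin.castAdd m a' := ⟨⟨a, by omega⟩, Fin.ext rfl⟩
    induction b using Fin.addCases with
    | left b => simpa only [dsum_left, Fin.lt_def, Fin.val_castAdd] using h a b h1 h2
    | right b =>
      have := (σ a).2
      simp only [dsum_left, dsum_right, Fin.lt_def, Fin.val_castAdd, Fin.val_natAdd]
      omega

lemma cut_top {N : ℕ} (π : Perm (Fin N)) : Cut π N := fun _ j _ h => absurd j.2 (not_lt.2 h)

def FirstCut {N : ℕ} (π : Perm (Fin N)) (k : ℕ) : Prop :=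
  Cut π k ∧ ∀ j, 0 < j → j < k → ¬Cut π j

lemma card_first {C : Fam} (h1 : Closed C) (h2 : SumClosed C) {k : ℕ} (hk : 0 < k) (m : ℕ) :
    Nat.card {π : Perm (Fin (k + m)) // π ∈ C (k + m) ∧ FirstCut π k} = ind C k * cnt C m := by
  rw [ind, cnt, ← Nat.card_prod]
  refine (Nat.card_eq_of_bijective (fun p : {π : Perm (Fin k) // π ∈ C k ∧ Indecomposable π} × C m =>
    (⟨dsum p.1.1 p.2.1, h2 _ _ _ _ p.1.2.1 p.2.2, (cut_dsum _ _ le_rfl).2 (cut_top _),
      fun j a1 a2 a3 => ((indec_iff _).1 p.1.2.2).2 j a1 a2 ((cut_dsum _ _ a2.le).1 a3)⟩ :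
      {π : Perm (Fin (k + m)) // π ∈ C (k + m) ∧ FirstCut π k})) ⟨fun p q e => ?_, ?_⟩).symm
  · have := dsum_inj (congrArg Subtype.val e)
    exact Prod.ext (Subtype.ext this.1) (Subtype.ext this.2)
  · rintro ⟨π, a1, a2, a3⟩
    obtain ⟨σ, τ, rfl⟩ := split π a2
    exact ⟨(⟨σ, h1 _ _ _ _ a1 (contains_left σ τ), (indec_iff σ).2 ⟨hk, fun j b1 b2 b3 =>
      a3 j b1 b2 ((cut_dsum _ _ b2.le).2 b3)⟩⟩, ⟨τ, h1 _ _ _ _ a1 (contains_right σ τ)⟩), rfl⟩

lemma cnt_rec {C : Fam} (h1 : Closed C) (h2 : SumClosed C) {N : ℕ} (hN : 0 < N) :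
    cnt C N = ∑ k ∈ Icc 1 N, ind C k * cnt C (N - k) := by
  classical
  have ex : ∀ π : Perm (Fin N), ∃ k, 0 < k ∧ Cut π k := fun π => ⟨N, hN, cut_top π⟩
  have e1 : cnt C N = (univ.filter (· ∈ C N)).card := Nat.subtype_card _ (by simp)
  rw [e1, card_eq_sum_card_fiberwise (f := fun π => Nat.find (ex π)) (t := Icc 1 N)
    fun π _ => mem_Icc.2 ⟨(Nat.find_spec (ex π)).1, Nat.find_min' _ ⟨hN, cut_top π⟩⟩]
  refine sum_congr rfl fun k hk => ?_
  obtain ⟨k1, k2⟩ := mem_Icc.1 hk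
  obtain ⟨m, rfl⟩ : ∃ m, N = k + m := ⟨N - k, by omega⟩
  rw [Nat.add_sub_cancel_left, ← card_first h1 h2 k1]
  refine (Nat.subtype_card _ fun π => ?_).symm
  simp only [mem_filter, mem_univ, true_and, Nat.find_eq_iff, FirstCut]
  exact and_congr_right fun _ => ⟨fun h => ⟨h.1.2, fun j a1 a2 a3 => h.2 j a2 ⟨a1, a3⟩⟩,
    fun h => ⟨⟨k1, h.1⟩, fun j a1 a2 => h.2 j a2.1 a1 a2.2⟩⟩

lemma cnt_rec' {C : Fam} (h1 : Closed C) (h2 : SumClosed C) {N : ℕ} (hN : 0 < N) (x : ℝ) :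
    cnt C N * x ^ N = ∑ k ∈ Icc 1 N, (ind C k * x ^ k) * (cnt C (N - k) * x ^ (N - k)) := by
  rw [cnt_rec h1 h2 hN]
  push_cast
  rw [sum_mul]
  refine sum_congr rfl fun k hk => ?_
  rw [show x ^ N = x ^ k * x ^ (N - k) by rw [← pow_add, Nat.add_sub_cancel' (mem_Icc.1 hk).2]]
  ring

lemma cnt_lower {C : Fam} (h1 : Closed C) (h2 : SumClosed C) (h3 : ∀ n, 0 < cnt C n) {x : ℝ}
    (x0 : 0 < x) (x1 : x ≤ 1) {K : ℕ} (hK : 1 ≤ ∑ k ∈ Icc 1 K, ind C k * x ^ k) (N : ℕ) :
    x ^ K ≤ cnt C N * x ^ N := by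
  induction N using Nat.strong_induction_on with
  | _ N ih =>
    by_cases hN : N ≤ K
    · have : (1 : ℝ) ≤ cnt C N := by exact_mod_cast h3 N
      exact (pow_le_pow_of_le_one x0.le x1 hN).trans (le_mul_of_one_le_left (by positivity) this)
    · rw [cnt_rec' h1 h2 (by omega)]
      calc x ^ K ≤ (∑ k ∈ Icc 1 K, ind C k * x ^ k) * x ^ K :=
            le_mul_of_one_le_left (by positivity) hK
        _ ≤ (∑ k ∈ Icc 1 N, ind C k * x ^ k) * x ^ K := by
            gcongr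
            omega
        _ ≤ _ := by
            rw [sum_mul]
            refine sum_le_sum fun k hk => mul_le_mul_of_nonneg_left (ih _ ?_) (by positivity)
            have := mem_Icc.1 hk
            omega

lemma cnt_upper {C : Fam} (h1 : Closed C) (h2 : SumClosed C) {x : ℝ} (x0 : 0 < x)
    (hK : ∀ K, ∑ k ∈ Icc 1 K, ind C k * x ^ k ≤ 1) (N : ℕ) : cnt C N * x ^ N ≤ 1 := by
  induction N using Nat.strong_induction_on with
  | _ N ih =>
    rcases Nat.eq_zero_or_pos N with rfl | hN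
    · have : cnt C 0 ≤ 1 := Finite.card_le_one_iff_subsingleton.2 inferInstance
      simpa using this
    · rw [cnt_rec' h1 h2 hN]
      refine le_trans (sum_le_sum fun k hk => ?_) (hK N)
      have := mem_Icc.1 hk
      exact mul_le_of_le_one_right (by positivity) (ih _ (by omega))

/-- The growth rate of the class is `g`. -/
def HasRate (C : Fam) (g : ℝ) : Prop :=
  Tendsto (fun n : ℕ => ((Nat.card (C n) : ℕ) : ℝ) ^ ((1 : ℝ) / (n : ℝ))) atTop (𝓝 g)

lemma rate_lower {C : Fam} {g x A : ℝ} (h : HasRate C g) (x0 : 0 < x) (hA : 0 < A)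
    (hN : ∀ N, A ≤ cnt C N * x ^ N) : x⁻¹ ≤ g := by
  have h1 : Tendsto (fun n : ℕ => A ^ ((1 : ℝ) / (n : ℝ)) * x⁻¹) atTop (𝓝 (A ^ (0 : ℝ) * x⁻¹)) :=
    (tendsto_const_nhds.rpow tendsto_one_div_atTop_nhds_zero_nat (Or.inl hA.ne')).mul_const _
  rw [Real.rpow_zero, one_mul] at h1
  refine le_of_tendsto_of_tendsto h1 h ?_
  filter_upwards [eventually_gt_atTop 0] with n hn
  have := Real.rpow_le_rpow hA.le (hN n) (show (0 : ℝ) ≤ 1 / n by positivity)
  rw [Real.mul_rpow (by positivity) (by positivity), one_div, Real.pow_rpow_inv_natCast x0.le hn.ne',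
    ← one_div] at this
  exact (mul_inv_le_iff₀ x0).2 this

lemma rate_upper {C : Fam} (h2 : SumClosed C) (h3 : ∀ n, 0 < cnt C n) {x : ℝ} (x0 : 0 < x)
    (hN : ∀ N, cnt C N * x ^ N ≤ 1) : ∃ g, HasRate C g ∧ g ≤ x⁻¹ := by
  set u : ℕ → ℝ := fun n => -Real.log (cnt C n) with hu
  have hpos : ∀ n, (0 : ℝ) < cnt C n := fun n => by exact_mod_cast h3 n
  have hsub : Subadditive u := by
    intro m n
    have h0 : cnt C m * cnt C n ≤ cnt C (m + n) := by
      rw [cnt, cnt, ← Nat.card_prod]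
      refine Nat.card_le_card_of_injective (fun p : C m × C n =>
        (⟨dsum p.1.1 p.2.1, h2 _ _ _ _ p.1.2 p.2.2⟩ : C (m + n))) fun p q h => ?_
      have := dsum_inj (congrArg Subtype.val h)
      exact Prod.ext (Subtype.ext this.1) (Subtype.ext this.2)
    have h : (cnt C m : ℝ) * cnt C n ≤ cnt C (m + n) := by exact_mod_cast h0
    have := Real.log_le_log (mul_pos (hpos m) (hpos n)) h
    rw [Real.log_mul (hpos m).ne' (hpos n).ne'] at this
    simp only [hu]
    linarith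
  have hlow : ∀ n : ℕ, 0 < n → Real.log x ≤ u n / n := by
    intro n hn
    have := Real.log_nonpos (mul_pos (hpos n) (pow_pos x0 n)).le (hN n)
    rw [Real.log_mul (hpos n).ne' (pow_pos x0 n).ne', Real.log_pow] at this
    rw [le_div_iff₀ (by exact_mod_cast hn)]
    simp only [hu]
    linarith
  have hbdd : BddBelow (Set.range fun n : ℕ => u n / n) := by
    refine ⟨min 0 (Real.log x), ?_⟩
    rintro _ ⟨n, rfl⟩
    rcases Nat.eq_zero_or_pos n with rfl | hn
    · simp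
    · exact (min_le_right _ _).trans (hlow n hn)
  have hlim := hsub.tendsto_lim hbdd
  refine ⟨Real.exp (-hsub.lim), ?_, ?_⟩
  · refine ((Real.continuous_exp.tendsto _).comp hlim.neg).congr fun n => ?_
    simp only [Function.comp, hu]
    rw [show ((Nat.card (C n) : ℕ) : ℝ) = cnt C n from rfl, Real.rpow_def_of_pos (hpos n)]
    congr 1
    ring
  · have h1 : Real.log x ≤ hsub.lim := ge_of_tendsto hlim
      (by filter_upwards [eventually_gt_atTop 0] with n hn using hlow n hn)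
    rw [← Real.exp_log x0, ← Real.exp_neg]
    exact Real.exp_le_exp.2 (by linarith)

/-- The indecomposable members have upper growth rate above one. -/
def IndExp (C : Fam) : Prop :=
  1 < limsup (fun n : ℕ =>
    ((Nat.card {π : Perm (Fin n) // π ∈ C n ∧ Indecomposable π} : ℕ) : ENNReal) ^
      ((1 : ℝ) / (n : ℝ))) atTop

lemma IndExp.big {C : Fam} (h : IndExp C) (K : ℕ) : ∃ N, 2 ≤ N ∧ (N * N + 1) ^ K < ind C N := by
  obtain ⟨r, r1, r2⟩ := ENNReal.lt_iff_exists_nnreal_btwn.1 h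
  have r3 : (1 : ℝ) < r := by exact_mod_cast r1
  have h1 := (tendsto_pow_const_div_const_pow_of_one_lt (2 * K) r3).eventually
    (gt_mem_nhds (show (0 : ℝ) < 1 / 2 ^ K by positivity))
  obtain ⟨N, a1, a2, a3⟩ := ((frequently_lt_of_lt_limsup (by isBoundedDefault) r2).and_eventually
    (h1.and (eventually_ge_atTop 2))).exists
  refine ⟨N, a3, ?_⟩
  have hN : (0 : ℝ) < N := by positivity
  have b1 := ENNReal.rpow_lt_rpow a1 hN
  rw [← ENNReal.rpow_mul, one_div, inv_mul_cancel₀ hN.ne', ENNReal.rpow_one,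
    ENNReal.rpow_natCast] at b1
  have b2 : (r : ℝ) ^ N < ind C N := by
    have : ((r ^ N : NNReal) : ENNReal) < ((ind C N : NNReal) : ENNReal) := by
      simpa [ind] using b1
    exact_mod_cast ENNReal.coe_lt_coe.1 this
  rw [div_lt_div_iff₀ (by positivity) (by positivity), one_mul] at a2
  have b3 : ((N : ℝ) * N + 1) ^ K ≤ (N : ℝ) ^ (2 * K) * 2 ^ K := by
    have : (2 : ℝ) ≤ N := by exact_mod_cast a3
    rw [pow_mul, ← mul_pow]
    gcongr
    nlinarith
  exact_mod_cast (b3.trans_lt a2).trans b2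

end Pool.Agent.P.MP_414122_co.Th
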