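import Pool.Agent.P.MP_414122_co.ThPath

/-! A connected point set that is not rich obeys a linear recurrence off a bounded set. -/

namespace Pool.Agent.P.MP_414122_co.Th

open Finset

variable {α : Type*} {X Y : α → ℤ}

lemma between (hY : Function.Injective Y) {a b x : α} (h : adj X Y a b) (h1 : X a < X x)
    (h2 : X x < X b) : adj X Y x a ∨ adj X Y x b := by
  have e1 : Y x ≠ Y a := fun e => by
    rw [hY e] at h1
    omega
  simp only [adj, nw] at h ⊢
  omega

lemma IsPath.alt1 {v : ℕ → α} {d : ℕ} (h : IsPath X Y v d) {i : ℕ} (hi : i + 2 ≤ d) :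
    nw X Y (v i) (v (i + 1)) ↔ nw X Y (v (i + 2)) (v (i + 1)) := by
  have s0 := h.step i (by omega)
  have s1 := h.step (i + 1) (by omega)
  have s2 := h.far i (i + 2) le_rfl hi
  simp only [adj, nw, sw] at s0 s1 s2 ⊢
  rw [show i + 1 + 1 = i + 2 from rfl] at s1
  omega

lemma IsPath.alt2 {v : ℕ → α} {d : ℕ} (h : IsPath X Y v d) {i : ℕ} (hi : i + 2 ≤ d) :
    nw X Y (v (i + 1)) (v i) ↔ nw X Y (v (i + 1)) (v (i + 2)) := by
  have s0 := h.step i (by omega)
  have s1 := h.step (i + 1) (by omega)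
  have s2 := h.far i (i + 2) le_rfl hi
  simp only [adj, nw, sw] at s0 s1 s2 ⊢
  rw [show i + 1 + 1 = i + 2 from rfl] at s1
  omega

lemma IsPath.succ (hY : Function.Injective Y) (fX : Full X) {v : ℕ → α} {d : ℕ}
    (h : IsPath X Y v d) {lo hi : ℕ} (hd : hi < d)
    (H : ∀ x k, lo ≤ k → k ≤ hi → adj X Y x (v k) → ∃ j ≤ d, v j = x) {i : ℕ} (h1 : lo ≤ i)
    (h2 : i + 2 ≤ hi) (hu : nw X Y (v (i + 1)) (v (i + 2))) :
    X (v i) = X (v (i + 1)) + 1 ∧ X (v (i + 3)) = X (v (i + 1)) + 2 := by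
  have u1 := ((h.alt2 (i := i) (by omega)).2 hu).1
  have u2 : X (v (i + 3)) < X (v (i + 2)) := ((h.alt1 (i := i + 1) (by omega)).1 hu).1
  have u3 := (h.far i (i + 2) le_rfl (by omega)).1
  have u4 := (h.far i (i + 3) (by omega) (by omega)).1
  have e1 : X (v i) = X (v (i + 1)) + 1 := by
    by_contra hc
    obtain ⟨x, hx⟩ := fX (v (i + 1)) (v i) (X (v (i + 1)) + 1) (by omega) (by omega)
    rcases between hY (adj_symm (h.step i (by omega))) (x := x) (by omega) (by omega) with a | a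
    · obtain ⟨j, hj, rfl⟩ := H x _ (by omega) (by omega) a
      rcases (by have := h.nbr hj (by omega) a; omega : j = i ∨ j = i + 2) with e | e <;>
        rw [e] at hx <;> omega
    · obtain ⟨j, hj, rfl⟩ := H x _ h1 (by omega) a
      rcases h.nbr hj (by omega) a with e | e
      · have := (h.far j (i + 1) (by omega) (by omega)).1
        omega
      · rw [e] at hx
        omega
  refine ⟨e1, ?_⟩
  by_contra hc
  obtain ⟨x, hx⟩ := fX (v i) (v (i + 3)) (X (v i) + 1) (by omega) (by omega)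
  rcases between hY (Or.inl hu) (x := x) (by omega) (by omega) with a | a
  · obtain ⟨j, hj, rfl⟩ := H x _ (by omega) (by omega) a
    rcases (by have := h.nbr hj (by omega) a; omega : j = i ∨ j = i + 2) with e | e <;>
      rw [e] at hx <;> omega
  · obtain ⟨j, hj, rfl⟩ := H x _ (by omega) h2 a
    rcases (by have := h.nbr hj (by omega) a; omega : j = i + 1 ∨ j = i + 3) with e | e <;>
      rw [e] at hx <;> omega

lemma IsPath.recur (hX : Function.Injective X) (hY : Function.Injective Y) (fX : Full X)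
    (fY : Full Y) {v : ℕ → α} {d : ℕ} (h : IsPath X Y v d) {lo hi : ℕ} (hd : hi < d)
    (H : ∀ x k, lo ≤ k → k ≤ hi → adj X Y x (v k) → ∃ j ≤ d, v j = x) {k : ℕ} (h1 : lo + 4 ≤ k)
    (h2 : k + 7 ≤ hi) {a b c e : α} (hb : X b = X a + 1) (hc : X c = X a + 2)
    (he : X e = X a + 3) (hq : X a ≤ X (v k) ∧ X (v k) ≤ X a + 2) : Y e + Y a = Y b + Y c := by
  have H' : ∀ x k, lo ≤ k → k ≤ hi → adj Y X x (v k) → ∃ j ≤ d, v j = x := fun x k a1 a2 a3 =>
    H x k a1 a2 (by simp only [adj, nw] at a3 ⊢; omega)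
  obtain ⟨t, ht, hu⟩ : ∃ t, (k = t + 4 ∨ k = t + 3) ∧ nw X Y (v t) (v (t + 1)) := by
    obtain ⟨t, rfl⟩ : ∃ t, k = t + 4 := ⟨k - 4, by omega⟩
    rcases h.step t (by omega) with a | a
    · exact ⟨t, Or.inl rfl, a⟩
    · exact ⟨t + 1, Or.inr rfl, (h.alt2 (by omega)).1 a⟩
  have l1 : nw X Y (v (t + 2)) (v (t + 1)) := (h.alt1 (by omega)).1 hu
  have u2 : nw X Y (v (t + 2)) (v (t + 3)) := (h.alt2 (i := t + 1) (by omega)).1 l1
  have l3 : nw X Y (v (t + 4)) (v (t + 3)) := (h.alt1 (i := t + 2) (by omega)).1 u2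
  have u4 : nw X Y (v (t + 4)) (v (t + 5)) := (h.alt2 (i := t + 3) (by omega)).1 l3
  have l5 : nw X Y (v (t + 6)) (v (t + 5)) := (h.alt1 (i := t + 4) (by omega)).1 u4
  have u6 : nw X Y (v (t + 6)) (v (t + 7)) := (h.alt2 (i := t + 5) (by omega)).1 l5
  have l7 : nw X Y (v (t + 8)) (v (t + 7)) := (h.alt1 (i := t + 6) (by omega)).1 u6
  have u8 : nw X Y (v (t + 8)) (v (t + 9)) := (h.alt2 (i := t + 7) (by omega)).1 l7
  have l9 : nw X Y (v (t + 10)) (v (t + 9)) := (h.alt1 (i := t + 8) (by omega)).1 u8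
  have x1 : X (v (t + 1)) = X (v (t + 2)) + 1 ∧ X (v (t + 4)) = X (v (t + 2)) + 2 :=
    h.succ hY fX hd H (i := t + 1) (by omega) (by omega) u2
  have x3 : X (v (t + 3)) = X (v (t + 4)) + 1 ∧ X (v (t + 6)) = X (v (t + 4)) + 2 :=
    h.succ hY fX hd H (i := t + 3) (by omega) (by omega) u4
  have x5 : X (v (t + 5)) = X (v (t + 6)) + 1 ∧ X (v (t + 8)) = X (v (t + 6)) + 2 :=
    h.succ hY fX hd H (i := t + 5) (by omega) (by omega) u6
  have y0 : Y (v t) = Y (v (t + 1)) + 1 ∧ Y (v (t + 3)) = Y (v (t + 1)) + 2 :=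
    h.swap.succ hX fY hd H' (i := t) (by omega) (by omega) l1.symm
  have y2 : Y (v (t + 2)) = Y (v (t + 3)) + 1 ∧ Y (v (t + 5)) = Y (v (t + 3)) + 2 :=
    h.swap.succ hX fY hd H' (i := t + 2) (by omega) (by omega) l3.symm
  have y4 : Y (v (t + 4)) = Y (v (t + 5)) + 1 ∧ Y (v (t + 7)) = Y (v (t + 5)) + 2 :=
    h.swap.succ hX fY hd H' (i := t + 4) (by omega) (by omega) l5.symm
  have y6 : Y (v (t + 6)) = Y (v (t + 7)) + 1 ∧ Y (v (t + 9)) = Y (v (t + 7)) + 2 :=
    h.swap.succ hX fY hd H' (i := t + 6) (by omega) (by omega) l7.symm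
  have y8 : Y (v (t + 8)) = Y (v (t + 9)) + 1 :=
    (h.swap.succ hX fY hd H' (i := t + 8) (by omega) (by omega) l9.symm).1
  have key : ∀ z : α, X (v (t + 2)) ≤ X z → X z ≤ X (v (t + 2)) + 6 →
      Y z = Y (v (t + 1)) + (X z - X (v (t + 2))) +
        (if (X z - X (v (t + 2))) % 2 = 0 then 3 else -1) := by
    intro z z1 z2
    have : X z = X (v (t + 2)) ∨ X z = X (v (t + 1)) ∨ X z = X (v (t + 4)) ∨ X z = X (v (t + 3)) ∨
      X z = X (v (t + 6)) ∨ X z = X (v (t + 5)) ∨ X z = X (v (t + 8)) := by omega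
    rcases this with e | e | e | e | e | e | e <;> rw [hX e] <;> split_ifs <;> omega
  have hk : X (v (t + 2)) + 2 ≤ X (v k) ∧ X (v k) ≤ X (v (t + 2)) + 3 := by
    rcases ht with e | e <;> rw [e] <;> omega
  rw [key a (by omega) (by omega), key b (by omega) (by omega), key c (by omega) (by omega),
    key e (by omega) (by omega)]
  split_ifs <;> omega

variable (X Y) in
/-- The recurrence fails at the four points starting with `a`. -/
def Bad (a : α) : Prop :=
  ∃ b c e, X b = X a + 1 ∧ X c = X a + 2 ∧ X e = X a + 3 ∧ Y e + Y a ≠ Y b + Y c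

lemma exists_path [Fintype α] (hC : Conn X Y univ) (s t : α) :
    ∃ (v : ℕ → α) (d : ℕ), v 0 = s ∧ v d = t ∧ (∀ i < d, adj X Y (v i) (v (i + 1))) ∧
      (∀ i j, i + 2 ≤ j → j ≤ d → v i ≠ v j ∧ ¬adj X Y (v i) (v j)) ∧
      ∀ x i j, i ≤ d → j ≤ d → adj X Y x (v i) → adj X Y x (v j) → j ≤ i + 2 := by
  let G : SimpleGraph α := SimpleGraph.fromRel (nw X Y)
  have hG : ∀ a b, G.Adj a b ↔ adj X Y a b := fun a b => by
    rw [SimpleGraph.fromRel_adj]
    refine ⟨fun h => h.2, fun h => ⟨fun e => ?_, h⟩⟩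
    rw [e] at h
    simp only [adj, nw] at h
    omega
  have hr : ∀ a, G.Reachable s a := fun a => by
    by_contra hc
    obtain ⟨a, -, b, -, h1, h2, h3⟩ := hC (G.Reachable s) ⟨s, mem_univ _, .refl _⟩
      ⟨a, mem_univ _, hc⟩
    exact h2 (h1.trans ((hG _ _).2 h3).reachable)
  have hc : G.Connected := (SimpleGraph.connected_iff_exists_forall_reachable G).2 ⟨s, hr⟩
  obtain ⟨p, hp⟩ := (hr t).exists_walk_length_eq_dist
  have h1 : ∀ i j, i ≤ j → j ≤ p.length → G.dist (p.getVert i) (p.getVert j) ≤ j - i := by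
    intro i j hij
    induction j, hij using Nat.le_induction with
    | base => simp
    | succ j hj ih =>
      intro h
      have a1 := ih (by omega)
      have a2 := hc.dist_triangle (u := p.getVert i) (v := p.getVert j) (w := p.getVert (j + 1))
      have a3 := SimpleGraph.dist_eq_one_iff_adj.2 (p.adj_getVert_succ (show j < _ from h))
      omega
  have h2 : ∀ i j, i ≤ j → j ≤ p.length → j - i ≤ G.dist (p.getVert i) (p.getVert j) := by
    intro i j hij hj
    have a1 := h1 0 i (by omega) (by omega)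
    have a2 := h1 j p.length hj le_rfl
    have a3 := hc.dist_triangle (u := s) (v := p.getVert i) (w := t)
    have a4 := hc.dist_triangle (u := p.getVert i) (v := p.getVert j) (w := t)
    rw [p.getVert_zero] at a1
    rw [p.getVert_length] at a2
    omega
  refine ⟨p.getVert, p.length, p.getVert_zero, p.getVert_length,
    fun i hi => (hG _ _).1 (p.adj_getVert_succ hi), fun i j a1 a2 => ⟨fun e => ?_, fun e => ?_⟩,
    fun x i j a1 a2 a3 a4 => ?_⟩
  · have := h2 i j (by omega) a2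
    rw [e, SimpleGraph.dist_self] at this
    omega
  · have := h2 i j (by omega) a2
    rw [SimpleGraph.dist_eq_one_iff_adj.2 ((hG _ _).2 e)] at this
    omega
  · by_contra hc2
    have b1 := h2 i j (by omega) a2
    have b2 := hc.dist_triangle (u := p.getVert i) (v := x) (w := p.getVert j)
    rw [SimpleGraph.dist_eq_one_iff_adj.2 ((hG _ _).2 a4),
      SimpleGraph.dist_eq_one_iff_adj.2 ((hG _ _).2 (adj_symm a3))] at b2
    omega

lemma isPath_of (hX : Function.Injective X) (hY : Function.Injective Y) {v : ℕ → α} {d : ℕ}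
    (h0 : ∀ x, X (v 0) ≤ X x) (h1 : ∀ i < d, adj X Y (v i) (v (i + 1)))
    (h2 : ∀ i j, i + 2 ≤ j → j ≤ d → v i ≠ v j ∧ ¬adj X Y (v i) (v j)) : IsPath X Y v d := by
  refine ⟨h1, fun i => ?_⟩
  induction i with
  | zero =>
    intro j a1 a2
    obtain ⟨b1, b2⟩ := h2 0 j a1 a2
    have := h0 (v j)
    have := hX.ne b1
    have := hY.ne b1
    simp only [adj, nw, sw] at *
    omega
  | succ i ih =>
    intro j a1 a2
    obtain ⟨b1, b2⟩ := h2 (i + 1) j a1 a2
    have c1 := ih j (by omega) a2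
    have c2 := h1 i (by omega)
    have c3 := hX.ne b1
    have c4 := hY.ne b1
    simp only [adj, nw, sw] at b2 c1 c2 ⊢
    omega

open Classical in
theorem bad_bound (hX : Function.Injective X) (hY : Function.Injective Y) (fX : Full X)
    (fY : Full Y) [Fintype α] (hC : Conn X Y univ) {n : ℕ} (hn : 3 ≤ n) (hR : ¬Rich X Y n) :
    (univ.filter (Bad X Y)).card ≤ (n + 10) * (2 * ((2 * n + 1) * (2 * n + 1))) * 3 := by
  rcases (univ.filter (Bad X Y)).eq_empty_or_nonempty with e | ⟨a0, ha0⟩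
  · simp [e]
  obtain ⟨b0, -, -, hb0, -⟩ := (mem_filter.1 ha0).2
  obtain ⟨s, -, hs⟩ := exists_min_image univ X ⟨a0, mem_univ _⟩
  obtain ⟨t, -, ht⟩ := exists_max_image univ X ⟨a0, mem_univ _⟩
  obtain ⟨v, d, rfl, rfl, p1, p2, p3⟩ := exists_path hC s t
  have h := isPath_of hX hY (fun x => hs x (mem_univ _)) p1 p2
  have hd : 0 < d := by
    by_contra hc
    obtain rfl : d = 0 := by omega
    have := hs a0 (mem_univ _)
    have := ht b0 (mem_univ _)
    omega
  have dom : ∀ x, ∃ i ≤ d, adj X Y x (v i) := fun x => by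
    by_cases hx : ∃ i ≤ d, v i = x
    · obtain ⟨i, hi, rfl⟩ := hx
      rcases hi.eq_or_lt with e | e
      · have := p1 (i - 1) (by omega)
        rw [show i - 1 + 1 = i by omega] at this
        exact ⟨i - 1, by omega, adj_symm this⟩
      · exact ⟨i + 1, e, p1 i e⟩
    · have hne : ∀ i ≤ d, X (v i) ≠ X x := fun i hi e => hx ⟨i, hi, hX e⟩
      have hex : ∃ i, i ≤ d ∧ X x < X (v i) :=
        ⟨d, le_rfl, lt_of_le_of_ne (ht x (mem_univ _)) (hne d le_rfl).symm⟩
      obtain ⟨a1, a2⟩ := Nat.find_spec hex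
      have a3 : Nat.find hex ≠ 0 := fun e => by
        rw [e] at a2
        exact absurd (hs x (mem_univ _)) (not_le.2 a2)
      obtain ⟨i, hi⟩ := Nat.exists_eq_succ_of_ne_zero a3
      have a4 := Nat.find_min hex (show i < _ by omega)
      rw [hi] at a1 a2
      have a5 := hne i (by omega)
      rcases between hY (p1 i a1) (x := x) (by omega) a2 with b | b
      · exact ⟨i, by omega, b⟩
      · exact ⟨i + 1, a1, b⟩
  have H : ∀ x k, n + 2 ≤ k → k ≤ d - n → adj X Y x (v k) → ∃ j ≤ d, v j = x := by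
    intro x k k1 k2 k3
    by_contra hc
    have hex : ∃ i, adj X Y x (v i) := ⟨k, k3⟩
    have a1 := Nat.find_min' hex k3
    have a2 := p3 x _ k (by omega) (by omega) (Nat.find_spec hex) k3
    exact hR (rich_path hX hY hn h x (fun k hk e => hc ⟨k, hk, e⟩) _ (Nat.find_spec hex)
      (fun k hk => Nat.find_min hex hk) (by omega) (by omega))
  let Q : α → Finset α := fun z => univ.filter fun q => Brk X Y q ∧ adj X Y q z
  have hQ : ∀ z, (Q z).card ≤ (2 * n + 1) * (2 * n + 1) := fun z =>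
    brk_bound hX hY fY hn hR z _ fun q hq => (mem_filter.1 hq).2
  let B := (range (n + 10)).biUnion fun j => Q (v j) ∪ Q (v (d - j))
  have hB : B.card ≤ (n + 10) * (2 * ((2 * n + 1) * (2 * n + 1))) := by
    refine (card_biUnion_le_card_mul _ _ (2 * ((2 * n + 1) * (2 * n + 1))) fun j _ => ?_).trans
      (by rw [card_range])
    have := card_union_le (Q (v j)) (Q (v (d - j)))
    have := hQ (v j)
    have := hQ (v (d - j))
    omega
  refine le_trans (card_le_card_of_forall_subsingleton (t := B ×ˢ range 3)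
    (fun a p => X p.1 = X a + p.2) ?_ ?_) ?_
  · intro a ha
    obtain ⟨b, c, e, hb, hc, he, hne⟩ := (mem_filter.1 ha).2
    obtain ⟨q, r, hr, h1, h2⟩ : ∃ q, ∃ r < 3, X q = X a + (r : ℕ) ∧ Brk X Y q := by
      by_contra hcon
      have n1 : ¬Brk X Y a := fun k => hcon ⟨a, 0, by omega, by simp, k⟩
      have n2 : ¬Brk X Y b := fun k => hcon ⟨b, 1, by omega, by simpa using hb, k⟩
      have n3 : ¬Brk X Y c := fun k => hcon ⟨c, 2, by omega, by simpa using hc, k⟩
      simp only [Brk, not_exists, not_and, not_not] at n1 n2 n3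
      have m1 := n1 b hb
      have m2 := n2 c (by omega)
      have m3 := n3 e (by omega)
      have m4 : Y a ≠ Y c := fun k => by
        rw [hY k] at hc
        omega
      have m5 : Y b ≠ Y e := fun k => by
        rw [hY k] at hb
        omega
      omega
    refine ⟨(q, r), mem_product.2 ⟨?_, mem_range.2 hr⟩, h1⟩
    obtain ⟨i, hi, h3⟩ := dom q
    by_cases c1 : i < n + 10
    · exact mem_biUnion.2 ⟨i, mem_range.2 c1,
        mem_union_left _ (mem_filter.2 ⟨mem_univ _, h2, h3⟩)⟩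
    by_cases c2 : d - i < n + 10
    · refine mem_biUnion.2 ⟨d - i, mem_range.2 c2,
        mem_union_right _ (mem_filter.2 ⟨mem_univ _, h2, ?_⟩)⟩
      rwa [show d - (d - i) = i by omega]
    obtain ⟨k, hk, rfl⟩ := H q i (by omega) (by omega) h3
    have := h.nbr hk hi h3
    exact absurd (h.recur hX hY fX fY (lo := n + 2) (hi := d - n) (by omega) H (k := k)
      (by omega) (by omega) hb hc he (by omega)) hne
  · intro p _ a ha b hb
    have a1 : X p.1 = X a + p.2 := ha.2
    have a2 : X p.1 = X b + p.2 := hb.2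
    exact hX (by omega)
  · rw [card_product, card_range]
    omega

end Pool.Agent.P.MP_414122_co.Th
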