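import Pool.Agent.P.MP_414122_co.ThLower

/-! The classes of patterns of `v` whose pendant points are far apart. -/

namespace Pool.Agent.P.MP_414122_co.Th

open Finset Equiv Filter Topology

/-- Patterns of `v` in which any two positions divisible by three are at distance at least `M`. -/
def D (M : ℕ) : Fam := fun n => {π | ∃ f : Fin n → ℕ, StrictMono f ∧
  (∀ i j, i < j → f i % 3 = 0 → f j % 3 = 0 → f i + M ≤ f j) ∧
    ∀ i j, π i < π j ↔ v (f i) < v (f j)}

lemma D_sub {M n : ℕ} {π : Perm (Fin n)} (h : π ∈ D M n) : π ∈ C n :=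
  let ⟨f, a, _, b⟩ := h
  ⟨f, a, b⟩

lemma D_closed (M : ℕ) : Closed (D M) := by
  rintro n k π σ ⟨f, hf, hM, hv⟩ ⟨g, hg⟩
  exact ⟨f ∘ g, hf.comp g.strictMono, fun i j hij => hM _ _ (g.strictMono hij),
    fun i j => by rw [hg, hv]; rfl⟩

lemma D_sum (M : ℕ) : SumClosed (D M) := by
  rintro k m σ τ ⟨f, hf, hM, hv⟩ ⟨g, hg, hM', hw⟩
  obtain ⟨B, hB⟩ : ∃ B, ∀ i, f i ≤ B := ⟨univ.sup f, fun i => le_sup (mem_univ i)⟩
  refine ⟨Fin.addCases f (fun j => g j + 3 * (B + M + 2)), fun a b hab => ?_, fun a b hab => ?_,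
    fun a b => ?_⟩ <;> induction a using Fin.addCases <;> induction b using Fin.addCases <;>
    rename_i a b <;>
    simp only [Fin.addCases_left, Fin.addCases_right, dsum_left, dsum_right, v_shift, Fin.lt_def,
      Fin.val_castAdd, Fin.val_natAdd] at *
  · exact hf hab
  · have := hB a
    omega
  · have := b.2
    omega
  · have := hg (show (a : ℕ) < b by omega)
    omega
  · exact hM a b hab
  · have := hB a
    omega
  · have := b.2
    omega
  · have := hM' a b (by omega)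
    omega
  · exact hv a b
  · have h1 := hB a
    have h2 := v_le (f a)
    have h3 := (σ a).2
    omega
  · have h1 := hB b
    have h2 := v_le (f b)
    have h3 := (σ b).2
    omega
  · have := hw a b
    omega

lemma succ_of_succ {n : ℕ} {f : Fin n → ℕ} (hf : StrictMono f) {i a : Fin n} (h : f a = f i + 1) :
    (a : ℕ) = i + 1 := by
  have h1 : (i : ℕ) < a := hf.lt_iff_lt.1 (show f i < f a by omega)
  by_contra hc
  have := a.2
  have h2 := hf (show i < ⟨i + 1, by omega⟩ from Nat.lt_succ_self _)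
  have h3 := hf (show (⟨i + 1, by omega⟩ : Fin n) < a from show (i : ℕ) + 1 < a by omega)
  omega

/-- `f` lists all positions below `3 T` except some that are divisible by three. -/
def Win (T : ℕ) {n : ℕ} (f : Fin n → ℕ) : Prop :=
  StrictMono f ∧ (∀ i, f i < 3 * T) ∧ ∀ p, p < 3 * T → p % 3 ≠ 0 → ∃ i, f i = p

lemma Win.indec {T n : ℕ} {f : Fin n → ℕ} (h : Win T f) (hn : 0 < n) {π : Perm (Fin n)}
    (hπ : ∀ i j, π i < π j ↔ v (f i) < v (f j)) : Indecomposable π := by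
  obtain ⟨h1, h2, h3⟩ := h
  refine indec_of_cut π hn fun k hk hkn => ?_
  obtain ⟨a, ha⟩ : ∃ a : Fin n, (a : ℕ) + 1 = k := ⟨⟨k - 1, by omega⟩, by simp only; omega⟩
  have hlt := h2 ⟨k, hkn⟩
  have hm := h1 (show a < ⟨k, hkn⟩ from show (a : ℕ) < k by omega)
  by_cases h : f a % 3 = 2
  · obtain ⟨p, hp⟩ := h3 (f a - 1) (by omega) (by omega)
    obtain ⟨q, hq⟩ := h3 (f a + 3) (by omega) (by omega)
    have b1 : (p : ℕ) < a := h1.lt_iff_lt.1 (show f p < f a by omega)
    have b2 : (a : ℕ) < q := h1.lt_iff_lt.1 (show f a < f q by omega)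
    refine ⟨p, q, by omega, by omega, (hπ _ _).2 ?_⟩
    simp only [hp, hq, v]
    split_ifs <;> omega
  · obtain ⟨q, hq⟩ := h3 (3 * (f a / 3) + 2) (by omega) (by omega)
    have b2 : (a : ℕ) < q := h1.lt_iff_lt.1 (show f a < f q by omega)
    refine ⟨a, q, by omega, by omega, (hπ _ _).2 ?_⟩
    simp only [hq, v]
    split_ifs <;> omega

lemma Win.nlt {T n : ℕ} {f g : Fin n → ℕ} (hf : Win T f) (hg : Win T g)
    (h : ∀ i j, v (f i) < v (f j) ↔ v (g i) < v (g j)) (i : Fin n)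
    (ih : ∀ j, j < i → f j = g j) : ¬f i < g i := fun hc => by
  have b0 := hf.2.1 i
  have b1 : f i % 3 = 0 := by
    by_contra e
    obtain ⟨j, hj⟩ := hg.2.2 _ b0 e
    have c1 : j < i := hg.1.lt_iff_lt.1 (by omega)
    have c2 := ih j c1
    have c3 := hf.1 c1
    omega
  obtain ⟨a, ha⟩ := hf.2.2 (f i + 1) (by omega) (by omega)
  obtain ⟨b, hb⟩ := hg.2.2 (f i + 1) (by omega) (by omega)
  obtain ⟨c, hc'⟩ := hg.2.2 (f i + 2) (by omega) (by omega)
  have e1 : b = i := le_antisymm (hg.1.le_iff_le.1 (by omega)) (not_lt.1 fun e => by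
    have c2 := ih b e
    have c3 := hf.1 e
    omega)
  subst e1
  have e2 : a = c := Fin.ext ((succ_of_succ hf.1 ha).trans (succ_of_succ hg.1 (by omega)).symm)
  subst e2
  have := h b a
  simp only [ha, hb, hc', v] at this
  split_ifs at this <;> omega

lemma Win.ext {T n : ℕ} {f g : Fin n → ℕ} (hf : Win T f) (hg : Win T g)
    (h : ∀ i j, v (f i) < v (f j) ↔ v (g i) < v (g j)) (i : Fin n) : f i = g i := by
  induction i using WellFoundedLT.induction with
  | _ i ih =>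
    exact le_antisymm (not_lt.1 (hg.nlt hf (fun i j => (h i j).symm) i fun j e => (ih j e).symm))
      (not_lt.1 (hf.nlt hg h i ih))

def lf (M : ℕ) {m : ℕ} (e : Fin m → Bool) (t : Fin m) : ℕ := 2 * (M * t) + if e t then M else 0

lemma lf_lt (M : ℕ) {m : ℕ} (e e' : Fin m → Bool) {s t : Fin m} (h : s < t) :
    lf M e s + M ≤ lf M e' t := by
  have := Nat.mul_le_mul_left M (show (s : ℕ) + 1 ≤ t from h)
  rw [mul_add, mul_one] at this
  simp only [lf]
  split_ifs <;> omega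

lemma exists_win {M : ℕ} (hM : 0 < M) {m : ℕ} (e : Fin m → Bool) :
    ∃ f : Fin ((4 * M + 1) * m) → ℕ, Win (2 * (M * m)) f ∧
      ∀ p, p % 3 = 0 → ((∃ i, f i = p) ↔ ∃ t, p = 3 * lf M e t) := by
  let g : (Fin (2 * (M * m)) × Fin 2) ⊕ Fin m → ℕ :=
    Sum.elim (fun a => 3 * a.1 + 1 + a.2) fun t => 3 * lf M e t
  have hg : Function.Injective g := by
    rintro (⟨a, b⟩ | s) (⟨c, d⟩ | t) h <;> simp only [g, Sum.elim_inl, Sum.elim_inr] at h
    · have := b.2
      have := d.2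
      rw [show a = c from Fin.ext (by omega), show b = d from Fin.ext (by omega)]
    · have := b.2
      omega
    · have := d.2
      omega
    · rcases lt_trichotomy s t with e1 | e1 | e1
      · have := lf_lt M e e e1
        omega
      · rw [e1]
      · have := lf_lt M e e e1
        omega
  have hc : (univ.image g).card = (4 * M + 1) * m := by
    rw [card_image_of_injective _ hg]
    simp only [card_univ, Fintype.card_sum, Fintype.card_prod, Fintype.card_fin]
    ring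
  have hr : ∀ p, (∃ i, (univ.image g).orderEmbOfFin hc i = p) ↔ ∃ x, g x = p := fun p => by
    rw [← Set.mem_range, range_orderEmbOfFin]
    simp
  refine ⟨(univ.image g).orderEmbOfFin hc, ⟨OrderEmbedding.strictMono _, fun i => ?_,
    fun p p1 p2 => (hr p).2 ⟨Sum.inl (⟨p / 3, by omega⟩, ⟨p % 3 - 1, by omega⟩), ?_⟩⟩,
    fun p hp => (hr p).trans ⟨?_, fun ⟨t, ht⟩ => ⟨Sum.inr t, ht.symm⟩⟩⟩
  · obtain ⟨⟨a, b⟩ | t, hx⟩ := (hr _).1 ⟨i, rfl⟩ <;> rw [← hx] <;>
      simp only [g, Sum.elim_inl, Sum.elim_inr]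
    · have := a.2
      have := b.2
      omega
    · have := Nat.mul_le_mul_left M (show (t : ℕ) + 1 ≤ m from t.2)
      rw [mul_add, mul_one] at this
      simp only [lf]
      split_ifs <;> omega
  · simp only [g, Sum.elim_inl]
    omega
  · rintro ⟨⟨a, b⟩ | t, hx⟩ <;> simp only [g, Sum.elim_inl, Sum.elim_inr] at hx
    · have := b.2
      omega
    · exact ⟨t, hx.symm⟩

lemma D_ind {M : ℕ} (hM : 0 < M) {m : ℕ} (hm : 0 < m) : 2 ^ m ≤ ind (D M) ((4 * M + 1) * m) := by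
  choose f f1 f2 using fun e : Fin m → Bool => exists_win hM e
  choose π hπ using fun e : Fin m → Bool => exists_std (fun i => v (f e i))
    fun a b hab => (f1 e).1.injective (v_inj hab)
  have h1 : ∀ e, π e ∈ D M _ := fun e => ⟨f e, (f1 e).1, fun i j hij a b => by
    obtain ⟨s, hs⟩ := (f2 e _ a).1 ⟨i, rfl⟩
    obtain ⟨t, ht⟩ := (f2 e _ b).1 ⟨j, rfl⟩
    have c := (f1 e).1 hij
    rcases lt_trichotomy s t with e1 | e1 | e1
    · have := lf_lt M e e e1
      omega
    · subst e1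
      omega
    · have := lf_lt M e e e1
      omega, hπ e⟩
  rw [show 2 ^ m = Nat.card (Fin m → Bool) by simp]
  refine Nat.card_le_card_of_injective (fun e => (⟨π e, h1 e, (f1 e).indec (by positivity) (hπ e)⟩ :
    {π : Perm (Fin _) // π ∈ D M _ ∧ Indecomposable π})) fun e e' h => funext fun t => ?_
  have h2 : π e = π e' := congrArg Subtype.val h
  have h3 := (f1 e).ext (f1 e') fun i j => by rw [← hπ, ← hπ, h2]
  obtain ⟨i, hi⟩ := (f2 e _ (by omega)).2 ⟨t, rfl⟩
  obtain ⟨s, hs⟩ := (f2 e' _ (by omega)).1 ⟨i, (h3 i).symm.trans hi⟩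
  rcases lt_trichotomy s t with e1 | e1 | e1
  · have := lf_lt M e' e e1
    omega
  · subst e1
    simp only [lf] at hs
    cases h4 : e s <;> cases h5 : e' s <;> simp [h4, h5] at hs ⊢ <;> omega
  · have := lf_lt M e e' e1
    omega

lemma D_exp {M : ℕ} (hM : 0 < M) : IndExp (D M) := by
  have h1 : (1 : ENNReal) < (2 : ENNReal) ^ ((1 : ℝ) / (4 * M + 1)) :=
    ENNReal.one_lt_rpow (by norm_num) (by positivity)
  refine lt_of_lt_of_le h1 (le_limsup_of_frequently_le (frequently_atTop.2 fun a => ?_))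
  refine ⟨(4 * M + 1) * (a + 1), by nlinarith, ?_⟩
  have h3 : (2 : ENNReal) ^ (a + 1) ≤ (ind (D M) ((4 * M + 1) * (a + 1)) : ENNReal) := by
    exact_mod_cast D_ind hM (show 0 < a + 1 by omega)
  refine le_trans ?_ (ENNReal.rpow_le_rpow h3 (by positivity))
  rw [← ENNReal.rpow_natCast, ← ENNReal.rpow_mul]
  apply le_of_eq
  congr 1
  push_cast
  field_simp

/-- Position `i` has a smaller entry to its right. -/
def nz {n : ℕ} (π : Perm (Fin n)) (i : ℕ) : Prop := ∃ h : i < n, code π ⟨i, h⟩ ≠ 0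

lemma nz_iff {n : ℕ} {π : Perm (Fin n)} {f : Fin n → ℕ} (hv : ∀ i j, π i < π j ↔ v (f i) < v (f j))
    (i : Fin n) : nz π i ↔ ∃ j, i < j ∧ v (f j) < v (f i) := by
  simp only [nz, i.2, exists_true_left, Fin.eta, code_pos_iff, hv]

lemma cross {n : ℕ} {π : Perm (Fin n)} {f : Fin n → ℕ} (hf : StrictMono f)
    (hv : ∀ i j, π i < π j ↔ v (f i) < v (f j)) (h : Indecomposable π) {k : ℕ} (k0 : 0 < k)
    (k1 : k < n) : ∃ a b : Fin n, (a : ℕ) < k ∧ k ≤ b ∧ v (f b) < v (f a) := by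
  have := ((indec_iff π).1 h).2 k k0 k1
  simp only [Cut, not_forall, hv] at this
  obtain ⟨a, b, a1, a2, a3⟩ := this
  refine ⟨a, b, a1, a2, lt_of_le_of_ne (not_lt.1 a3) fun e => ?_⟩
  rw [hf.injective (v_inj e)] at a2
  omega

lemma code_two {n : ℕ} {π : Perm (Fin n)} (hπ : π ∈ C n) (h : Indecomposable π) (i : Fin n) :
    code π i = 2 ↔ (i : ℕ) + 2 < n ∧ ¬nz π (i + 1) := by
  obtain ⟨c1, c2, -⟩ := code_facts π hπ
  obtain ⟨f, hf, hv⟩ := hπ
  constructor
  · intro e
    obtain ⟨a, ha, b, hb, hab⟩ := one_lt_card.1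
      (show 1 < (univ.filter fun j => i < j ∧ π j < π i).card from e ▸ (by decide : 1 < 2) |>.trans_eq rfl)
    have a1 : (i : ℕ) < a := (mem_filter.1 ha).2.1
    have b1 : (i : ℕ) < b := (mem_filter.1 hb).2.1
    have := a.2
    have := b.2
    have : (a : ℕ) ≠ b := fun e => hab (Fin.ext e)
    refine ⟨?_, fun ⟨d1, d2⟩ => d2 (c2 i _ rfl e)⟩
    omega
  · rintro ⟨e1, e2⟩
    obtain ⟨j, hj⟩ : ∃ j : Fin n, (j : ℕ) = i + 1 := ⟨⟨i + 1, by omega⟩, rfl⟩
    rw [← hj, nz_iff hv] at e2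
    obtain ⟨a, b, a1, a2, a3⟩ := cross hf hv h (show 0 < (i : ℕ) + 2 by omega) e1
    have b1 : j < b := show (j : ℕ) < b by omega
    have b2 : ¬v (f b) < v (f j) := fun e => e2 ⟨b, b1, e⟩
    have b3 : a < j := lt_of_le_of_ne (show (a : ℕ) ≤ j by omega) fun e => b2 (e ▸ a3)
    have b4 := hf b1
    have b5 := hf b3
    have b6 := inv_cases (b5.trans b4) a3
    have b7 : f j = f a + 1 ∧ v (f j) < v (f a) := by
      simp only [v] at b2 ⊢
      split_ifs at b2 ⊢ <;> omega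
    obtain rfl : a = i := Fin.ext (by have := succ_of_succ hf b7.1; omega)
    exact le_antisymm (c1 a) (one_lt_card.2 ⟨j, mem_filter.2 ⟨mem_univ _, b3, (hv _ _).2 b7.2⟩, b,
      mem_filter.2 ⟨mem_univ _, b3.trans b1, (hv _ _).2 a3⟩, b1.ne⟩)

lemma nz_ext {n : ℕ} {π σ : Perm (Fin n)} (hπ : π ∈ C n) (h : Indecomposable π) (hσ : σ ∈ C n)
    (h' : Indecomposable σ) (e : ∀ i, nz π i ↔ nz σ i) : π = σ := by
  refine code_inj (funext fun i => ?_)
  have a1 := (code_facts π hπ).1 i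
  have a2 := (code_facts σ hσ).1 i
  have a3 : code π i = 2 ↔ code σ i = 2 := by rw [code_two hπ h, code_two hσ h', e]
  have a4 : code π i ≠ 0 ↔ code σ i ≠ 0 := by simpa only [nz, i.2, exists_true_left] using e i
  omega

lemma D_two (M n : ℕ) : ind (D M) n ≤ 4 * 2 ^ n := by
  have := Nat.card_le_card_of_injective
    (fun (π : {π : Perm (Fin n) // π ∈ D M n ∧ Indecomposable π}) (i : Fin n) => nz π.1 i)
    fun π σ e => Subtype.ext (nz_ext (D_sub π.2.1) π.2.2 (D_sub σ.2.1) σ.2.2 fun i =>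
      ⟨fun a => (congrFun e ⟨i, a.1⟩).mp a, fun a => (congrFun e ⟨i, a.1⟩).mpr a⟩)
  have h2 : Nat.card (Fin n → Prop) = 2 ^ n := by simp
  exact (this.trans h2.le).trans (by omega)

/-- The word `w` alternates, apart from the steps that end at `e` or, before `e`, start at `0`. -/
def Alt (n e : ℕ) (w : ℕ → Prop) : Prop :=
  w 0 ∧ w e ∧ w (e - 1) ∧ (∀ i, w i → i + 1 < n) ∧
    ∀ i, 1 ≤ i ∨ e ≤ i → i + 1 ≠ e → i + 2 < n → (w (i + 1) ↔ ¬w i)

lemma Alt.ext {n e : ℕ} {w u : ℕ → Prop} (h : Alt n e w) (h' : Alt n e u) (i : ℕ) : w i ↔ u i := by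
  obtain ⟨a0, a1, a2, a3, a4⟩ := h
  obtain ⟨b0, b1, b2, b3, b4⟩ := h'
  have := a3 e a1
  by_cases c : e ≤ i
  · induction i, c using Nat.le_induction with
    | base => exact iff_of_true a1 b1
    | succ i c ih =>
      by_cases d : i + 2 < n
      · exact (a4 i (Or.inr c) (by omega) d).trans
          ((not_congr ih).trans (b4 i (Or.inr c) (by omega) d).symm)
      · exact iff_of_false (fun x => d (a3 _ x)) fun x => d (b3 _ x)
  · have key : ∀ t i, i + t + 1 = e → (w i ↔ u i) := fun t => by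
      induction t with
      | zero =>
        intro i hi
        obtain rfl : i = e - 1 := by omega
        exact iff_of_true a2 b2
      | succ t ih =>
        intro i hi
        rcases Nat.eq_zero_or_pos i with rfl | i0
        · exact iff_of_true a0 b0
        · have := ih (i + 1) (by omega)
          rw [a4 i (Or.inl i0) (by omega) (by omega), b4 i (Or.inl i0) (by omega) (by omega)] at this
          exact not_iff_not.1 this
    exact key (e - 1 - i) i (by omega)

lemma exists_alt {M n : ℕ} (hn : 2 ≤ n) (hM : 4 * n < M) {π : Perm (Fin n)} (hπ : π ∈ D M n)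
    (h : Indecomposable π) : ∃ e : Fin (n - 1), Alt n e (nz π) := by
  have c2 := code_two (D_sub hπ) h
  obtain ⟨f, hf, hd, hv⟩ := hπ
  have w3 : ∀ i, nz π i → i + 1 < n := fun i hi => by
    obtain ⟨j, j1, -⟩ := (nz_iff hv ⟨i, hi.1⟩).1 hi
    have : i < j := j1
    have := j.2
    omega
  have w0 : nz π 0 := by
    obtain ⟨a, b, a1, a2, a3⟩ := cross hf hv h one_pos hn
    rw [← show (a : ℕ) = 0 by omega]
    exact (nz_iff hv a).2 ⟨b, show (a : ℕ) < b by omega, a3⟩
  have w2 : ∀ i, i + 2 < n → ¬nz π i → nz π (i + 1) := fun i hi e => by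
    by_contra e'
    exact e ⟨by omega, by rw [(c2 ⟨i, by omega⟩).2 ⟨hi, e'⟩]; omega⟩
  have gap : ∀ (t : ℕ) (i j : Fin n), (j : ℕ) = i + t → f j ≤ f i + 4 * t := fun t => by
    induction t with
    | zero => exact fun i j e => by rw [show j = i from Fin.ext e]; omega
    | succ t ih =>
      intro i j e
      have := j.2
      have b0 := ih i ⟨i + t, by omega⟩ rfl
      obtain ⟨a, b, a1, a2, a3⟩ := cross hf hv h (show 0 < (j : ℕ) by omega) j.2
      have b1 := inv_cases (hf (show a < b from show (a : ℕ) < b by omega)) a3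
      have b2 := hf.monotone (show j ≤ b from a2)
      have b3 := hf.monotone (show a ≤ ⟨i + t, by omega⟩ from show (a : ℕ) ≤ i + t by omega)
      omega
  have leaf : ∀ i : Fin n, 1 ≤ (i : ℕ) → nz π i → nz π (i + 1) → f i % 3 = 0 := fun i i1 e1 e2 => by
    obtain ⟨c, c1, c3⟩ := (nz_iff hv i).1 e1
    obtain ⟨d, d1, d3⟩ := (nz_iff hv ⟨i + 1, e2.1⟩).1 e2
    obtain ⟨a, b, a1, a2, a3⟩ := cross hf hv h i1 i.2
    have b0 := hf (show a < i from a1)
    have b1 := inv_cases (hf (show a < b from show (a : ℕ) < b by omega)) a3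
    have b2 := inv_cases (hf c1) c3
    have b3 := inv_cases (hf d1) d3
    have b4 := hf.monotone (show i ≤ b from a2)
    by_contra hc
    have b5 := succ_of_succ hf (show f b = f i + 1 by omega)
    rw [show b = ⟨i + 1, e2.1⟩ from Fin.ext b5] at b1
    omega
  have uniq : ∀ i j, 1 ≤ i → i < j → nz π i → nz π (i + 1) → nz π j → ¬nz π (j + 1) :=
    fun i j i1 ij a1 a2 a3 a4 => by
      have b1 := hd ⟨i, a1.1⟩ ⟨j, a3.1⟩ ij (leaf _ i1 a1 a2) (leaf _ (i1.trans ij.le) a3 a4)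
      have b2 := gap (j - i) ⟨i, a1.1⟩ ⟨j, a3.1⟩ (by simp only; omega)
      have := a3.1
      omega
  by_cases c : ∃ d, nz π d ∧ nz π (d + 1)
  · classical
    obtain ⟨d, ⟨d1, d2⟩, d3⟩ : ∃ d, (nz π d ∧ nz π (d + 1)) ∧
        ∀ i, d < i → ¬(nz π i ∧ nz π (i + 1)) := by
      obtain ⟨d, d1⟩ := c
      exact ⟨Nat.findGreatest (fun d => nz π d ∧ nz π (d + 1)) n,
        Nat.findGreatest_spec (P := fun d => nz π d ∧ nz π (d + 1)) d1.1.1.le d1,
        fun i i1 i2 => Nat.findGreatest_is_greatest i1 i2.1.1.le i2⟩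
    have := w3 _ d2
    refine ⟨⟨d + 1, by omega⟩, w0, d2, d1, w3, fun i i1 i2 i3 => ⟨fun a b => ?_, w2 i i3⟩⟩
    simp only at i1 i2
    rcases lt_or_gt_of_ne (show i ≠ d by omega) with e | e
    · exact uniq i d (by omega) e b a d1 d2
    · exact d3 i e ⟨b, a⟩
  · exact ⟨⟨0, by omega⟩, w0, w0, w0, w3, fun i _ _ i3 => ⟨fun a b => c ⟨i, b, a⟩, w2 i i3⟩⟩

lemma D_bb {M n : ℕ} (hM : 4 * n < M) : ind (D M) n ≤ bb n := by
  rcases (by omega : n = 0 ∨ n = 1 ∨ 2 ≤ n) with rfl | rfl | hn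
  · have : IsEmpty {π : Perm (Fin 0) // π ∈ D M 0 ∧ Indecomposable π} :=
      ⟨fun π => lt_irrefl _ π.2.2.1⟩
    simp [ind]
  · exact Finite.card_le_one_iff_subsingleton.2 inferInstance
  · choose e he using fun π : {π : Perm (Fin n) // π ∈ D M n ∧ Indecomposable π} =>
      exists_alt hn hM π.2.1 π.2.2
    have := Nat.card_le_card_of_injective e fun π σ x => Subtype.ext
      (nz_ext (D_sub π.2.1) π.2.2 (D_sub σ.2.1) σ.2.2 ((he π).ext (x ▸ he σ)))
    simpa [ind, bb, show n ≠ 1 by omega] using this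

theorem upper {θ : ℝ} (hθ : θ ^ 3 - 3 * θ ^ 2 + 2 * θ - 1 = 0) (h0 : 2.32 < θ) {t : ℝ}
    (ht : θ < t) : ∃ C g, Closed C ∧ SumClosed C ∧ IndExp C ∧ HasRate C g ∧ g ≤ t := by
  have t0 : 0 < θ := by linarith
  obtain ⟨L, -, hL⟩ := room hθ h0 (inv_pos.2 (t0.trans ht)) (inv_strictAnti₀ t0 ht)
  have h3 := D_exp (show 0 < 4 * L + 1 by omega)
  obtain ⟨g, g1, g2⟩ := rate_upper (D_sum _) (cnt_pos (D_closed _) (D_sum _) h3)
    (inv_pos.2 (t0.trans ht)) (cnt_upper (D_closed _) (D_sum _) (inv_pos.2 (t0.trans ht))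
      (hL _ (fun k hk => D_bb (by omega)) (D_two _)))
  exact ⟨_, g, D_closed _, D_sum _, h3, g1, by rwa [inv_inv] at g2⟩

end Pool.Agent.P.MP_414122_co.Th
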