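import Pool.Agent.P.MP_414122_co.Main

open Filter Topology Pool.Agent.P.MP_414122_co

theorem Pool.Agent.P.MP_414122_co.VariantCounterexample.result :
    ∃ C : (n : ℕ) → Set (Equiv.Perm (Fin n)),
      (∀ (n k : ℕ) (π : Equiv.Perm (Fin n)) (σ : Equiv.Perm (Fin k)),
        π ∈ C n → Contains π σ → σ ∈ C k) ∧
      (∀ (k m : ℕ) (σ : Equiv.Perm (Fin k)) (τ : Equiv.Perm (Fin m)),
        σ ∈ C k → τ ∈ C m → dsum σ τ ∈ C (k + m)) ∧
      1 < limsup (fun n : ℕ =>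
        ((Nat.card {π : Equiv.Perm (Fin n) // π ∈ C n ∧ Indecomposable π} : ℕ) : ENNReal) ^
          ((1 : ℝ) / (n : ℝ))) atTop ∧
      ∃ g : ℝ,
        Tendsto (fun n : ℕ => ((Nat.card (C n) : ℕ) : ℝ) ^ ((1 : ℝ) / (n : ℝ))) atTop (𝓝 g) ∧
          g < 1 + √2 :=
  ⟨C, fun _ _ π σ => closed π σ, fun _ _ σ τ => sumClosed σ τ, ind_growth, growth⟩
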